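import Pool.Agent.CE.Defs
import Pool.Agent.CF.Tr

/-!
# Project CF: a nonzero class with a finite orbit in the lowest degree of the cohomology with compact supports

`CohF Λ K B n`: the simplicial complex `K` is locally finite, `B` is a subcomplex, the cohomology with compact supports of
`(K, B)` over the field of two elements is zero in the degrees less than `n`, and some nonzero class of the degree `n`
has a finite orbit under the group `Λ`.
-/

set_option autoImplicit false
set_option linter.unusedSectionVars false

open Finset Pointwise

namespace Pool.Agent.CF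

open Pool.Agent.H37.TM Pool.Agent.S10 Pool.Agent.CD

variable {U : Type} [DecidableEq U]

/-- The simplicial complex `K` is locally finite, `B` is a subcomplex, the cohomology with compact supports of `(K, B)`
over the field of two elements is zero in the degrees less than `n`, and in the degree `n` the class of some cocycle `z`
is not zero and has a finite orbit: there is a finite set `Z` of cocycles such that every translate of `z` is cohomologous
to an element of `Z`. -/
structure CohF (Λ : Type) [Group Λ] [MulAction Λ U] (K B : Set (Finset U)) (n : ℕ) : Prop where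
  ne : ∀ s ∈ K, s.Nonempty
  down : ∀ s ∈ K, ∀ t, t ⊆ s → t.Nonempty → t ∈ K
  bd_sub : B ⊆ K
  bd_down : ∀ s ∈ B, ∀ t, t ⊆ s → t.Nonempty → t ∈ B
  locfin : ∀ s ∈ K, {t | t ∈ K ∧ s ⊆ t}.Finite
  low : ∀ j < n, ∀ w, Cocy K B j w → Cobd K B j w
  cls : ∃ z, Cocy K B n z ∧ ¬ Cobd K B n z ∧ ∃ Z : Finset (Finset U →₀ ZMod 2),
    ∀ g : Λ, ∃ w ∈ Z, Cocy K B n w ∧ Cobd K B n (trn g z + w)

end Pool.Agent.CF
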