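import Pool.Agent.CE.Chn
import Pool.Agent.CF.Tr
import Pool.Agent.CD.Mu

/-!
# Project CF: the chain maps between the chains of `X` and the controlled functions, finite orbit version

`HA K B n` = finite cochains modulo coboundaries; a class with finite orbit in place of the fundamental cycle.
`φ` lifts `1 ↦ (0, the constant function with value the class of z)`, `ψ` lifts a functional with the value `1` on the
class of `z`.
-/

set_option autoImplicit false
set_option linter.unusedSectionVars false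

open Finset Pointwise
open scoped TensorProduct

noncomputable section

namespace Pool.Agent.CF

open Pool.Agent.S11 Pool.Agent.S10 Pool.Agent.H37.TM Pool.Agent.CE Pool.Agent.CD

/-- the functions `H → A` with the right translations -/
def ellA (H : Type) [Group H] (A : Type) [AddCommGroup A] [Module (ZMod 2) A] : Representation (ZMod 2) H (H → A) where
  toFun g :=
    { toFun := fun u a => u (a * g)
      map_add' := fun _ _ => rfl
      map_smul' := fun _ _ => rfl }
  map_one' := by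
    refine LinearMap.ext fun u => ?_
    funext a
    show u (a * 1) = u a
    rw [mul_one]
  map_mul' g g' := by
    refine LinearMap.ext fun u => ?_
    funext a
    show u (a * (g * g')) = u (a * g * g')
    rw [mul_assoc]

section

variable {H Λ U : Type} [Group H] [Group Λ] [DecidableEq U] [MulAction Λ U] {f : H → Λ} {K B : Set (Finset U)} {n : ℕ}

/-- the finite cochains modulo the coboundaries -/
abbrev HA (K B : Set (Finset U)) (n : ℕ) : Type := (Finset U →₀ ZMod 2) ⧸ cbd K B n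

/-- the value at `a` of a controlled function, as a finite cochain -/
def vl (f : H → Λ) (K B : Set (Finset U)) (q : ℕ) (a : H) : PC f K B q →ₗ[ZMod 2] (Finset U →₀ ZMod 2) where
  toFun c := Finsupp.ofSupportFinite (c.1 a) (PC_finite c a)
  map_add' _ _ := Finsupp.ext fun _ => rfl
  map_smul' _ _ := Finsupp.ext fun _ => rfl

@[simp] theorem vl_apply (q : ℕ) (a : H) (c : PC f K B q) (t : Finset U) : vl f K B q a c t = c.1 a t := rfl

/-- the classes of the values -/
def clP (f : H → Λ) (K B : Set (Finset U)) (n : ℕ) : PC f K B (n + 1) →ₗ[ZMod 2] (H → HA K B n) :=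
  LinearMap.pi fun a => (cbd K B n).mkQ ∘ₗ vl f K B (n + 1) a

theorem clP_apply (c : PC f K B (n + 1)) (a : H) :
    clP f K B n c a = Submodule.Quotient.mk (vl f K B (n + 1) a c) := rfl

theorem vl_dP_mem (h : Crs f K B) (y : PC f K B n) (a : H) : vl f K B (n + 1) a (dP h n (n + 1) y) ∈ cbd K B n := by
  classical
  refine ⟨fun t ht => ?_, vl f K B n a y, fun t ht => ?_, fun t h1 h2 _ => ?_⟩
  · obtain ⟨h1, h2, h3⟩ := PC_supp (dP h n (n + 1) y) ht
    exact ⟨h1, h2, empty_subset _, h3⟩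
  · obtain ⟨h1, h2, h3⟩ := PC_supp y ht
    exact ⟨h1, h2, empty_subset _, h3⟩
  · rw [sdiff_empty]
    show ∑ v ∈ t, y.1 a (t.erase v) = cobQ K B (n + 1) (y.1 a) t
    by_cases hc : t.card = n + 1
    · rw [cobQ_of _ h1 h2 hc]
    · unfold cobQ
      rw [if_neg fun h3 => hc h3.2.2]
      refine sum_eq_zero fun v hv => ?_
      by_contra h4
      have h5 := (PC_supp y h4).2.2
      rw [card_erase_of_mem hv] at h5
      have h6 : 0 < t.card := card_pos.2 ⟨v, hv⟩
      omega

theorem clP_dP (h : Crs f K B) (y : PC f K B n) : clP f K B n (dP h n (n + 1) y) = 0 := by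
  funext a
  rw [clP_apply]
  exact (Submodule.Quotient.mk_eq_zero _).2 (vl_dP_mem h y a)

/-- exactness in the top degree -/
theorem exact_top (h : Crs f K B) {x : PC f K B (n + 1)} (hm : clP f K B n x = 0) :
    ∃ y : PC f K B n, dP h n (n + 1) y = x := by
  refine exists_fill h x fun a => ?_
  have h1 : vl f K B (n + 1) a x ∈ cbd K B n := (Submodule.Quotient.mk_eq_zero _).1 (congrFun hm a)
  obtain ⟨-, g, hg1, hg2⟩ := h1
  exact ⟨trn (f a) g, rel_trn h (f a) hg1, cob_trn h (f a) hg2⟩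

theorem cbd_trn (h : Crs f K B) (g : Λ) {w : Finset U →₀ ZMod 2} (hw : w ∈ cbd K B n) : trn g w ∈ cbd K B n := by
  obtain ⟨h1, b, hb1, hb2⟩ := hw
  exact ⟨rel_trn h g h1, trn g b, rel_trn h g hb1, cob_trn h g hb2⟩

theorem rel_add' {j : ℕ} {u v : Finset U →₀ ZMod 2} (hu : Rel K B ∅ j u) (hv : Rel K B ∅ j v) :
    Rel K B ∅ j (u + v : Finset U →₀ ZMod 2) := by
  intro t ht
  by_cases h0 : u t = 0
  · refine hv t fun h1 => ht ?_
    rw [Finsupp.add_apply, h0, h1, add_zero]
  · exact hu t h0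

/-- a cocycle with the constant value the class of `z` -/
theorem exists_a0 (h : Crs f K B) {z : Finset U →₀ ZMod 2} (hz : Cocy K B n z) {Z : Finset (Finset U →₀ ZMod 2)}
    (hZ : ∀ g : Λ, ∃ w ∈ Z, Cocy K B n w ∧ Cobd K B n (trn g z + w)) :
    ∃ x : PC f K B (n + 1), dP h (n + 1) (n + 1 + 1) x = 0 ∧ clP f K B n x = fun _ => Submodule.Quotient.mk z := by
  classical
  choose w hwZ hw1 hw2 using fun a : H => hZ (f a)
  have hF : (⋃ u ∈ (Z : Set (Finset U →₀ ZMod 2)), {s : Finset U | u s ≠ 0}).Finite :=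
    Z.finite_toSet.biUnion fun u _ => u.hasFiniteSupport
  have hmem : (fun a s => w a ((f a)⁻¹ • s)) ∈ PC f K B (n + 1) :=
    PC_of h (w := fun a => w a) (fun a => (hw1 a).1) hF fun a s hs => Set.mem_biUnion (hwZ a) hs
  refine ⟨⟨_, hmem⟩, ?_, ?_⟩
  · refine Subtype.ext ?_
    funext a t
    show cobQ K B (n + 1 + 1) (fun s => w a ((f a)⁻¹ • s)) t = 0
    rw [cobQ_tr h]
    by_contra h0
    obtain ⟨⟨h1, h2, h3⟩, -⟩ := cobQ_supp h0
    apply h0
    rw [cobQ_of _ h1 h2 h3]
    have h4 := (hw1 a).2 _ h1 h2 (empty_subset _)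
    rwa [sdiff_empty] at h4
  · funext a
    rw [clP_apply]
    refine (Submodule.Quotient.eq _).2 ?_
    have h1 : trn (f a) z + w a ∈ cbd K B n := ⟨rel_add' (rel_trn h (f a) hz.1) (hw1 a).1, hw2 a⟩
    have h2 := cbd_trn h (f a)⁻¹ h1
    have h3 : vl f K B (n + 1) a ⟨_, hmem⟩ - z = trn (f a)⁻¹ (trn (f a) z + w a) := by
      refine Finsupp.ext fun t => ?_
      rw [Finsupp.sub_apply]
      show w a ((f a)⁻¹ • t) - z t = z (f a • (f a)⁻¹ • t) + w a ((f a)⁻¹ • t)
      rw [smul_inv_smul, CharTwo.sub_eq_add, add_comm]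
    rw [h3]
    exact h2

/-- a functional with value one on the class of `z` -/
theorem exists_lam {z : Finset U →₀ ZMod 2} (hz : ¬ Cobd K B n z) :
    ∃ lam : HA K B n →ₗ[ZMod 2] ZMod 2, lam (Submodule.Quotient.mk z) = 1 := by
  have hnot : z ∉ cbd K B n := fun h1 => hz h1.2
  obtain ⟨l, hl1, hl2⟩ := Submodule.exists_le_ker_of_notMem hnot
  have h01 : ∀ a : ZMod 2, a ≠ 0 → a = 1 := by decide
  exact ⟨(cbd K B n).liftQ l hl2, h01 _ hl1⟩

/-- exactness in the low degrees -/
theorem exact_low (h : Crs f K B) (hlow : ∀ j < n, ∀ w, Cocy K B j w → Cobd K B j w) {a b c : ℕ} (hab : b = a + 1)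
    (hbc : c = b + 1) (hb : b ≤ n) {x : PC f K B b} (hx : dP h b c x = 0) : ∃ y : PC f K B a, dP h a b y = x := by
  subst hab
  subst hbc
  exact (dP_exact h a (fun w hw1 hw2 => hlow a (by omega) w ⟨hw1, hw2⟩) x).1 hx

/-- the augmentation of the complex of the controlled functions -/
def augA (h : Crs f K B) (n : ℕ) :
    PC f K B (n + 1 - 0) →ₗ[ZMod 2] (PC f K B (n + 1 + 1) × (H → HA K B n)) :=
  LinearMap.prod (dP h (n + 1) (n + 1 + 1)) (clP f K B n)

theorem augA_apply (h : Crs f K B) (x : PC f K B (n + 1 - 0)) :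
    augA h n x = (dP h (n + 1) (n + 1 + 1) x, clP f K B n x) := rfl

theorem cpx_A (h : Crs f K B) (n : ℕ) :
    Cpx (C := fun p => PC f K B (n + 1 - p)) (fun p => PR h (n + 1 - p)) ((PR h (n + 1 + 1)).prod (ellA H (HA K B n)))
      (fun p => dP h (n + 1 - (p + 1)) (n + 1 - p)) (augA h n) where
  d_smul := fun _ g x => dP_smul h _ _ g x
  e_smul := fun _ _ => rfl
  dd := fun _ x => dP_dP h _ _ _ x
  ed := fun x => Prod.ext (dP_dP h _ _ _ x) (clP_dP h x)

theorem exc_A (h : Crs f K B) (hlow : ∀ j < n, ∀ w, Cocy K B j w → Cobd K B j w) :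
    Exc (C := fun p => PC f K B (n + 1 - p)) (fun p => dP h (n + 1 - (p + 1)) (n + 1 - p)) (augA h n) where
  ex := by
    intro p x hx
    by_cases hp : p + 1 ≤ n
    · exact exact_low h hlow (by omega) (by omega) (by omega) hx
    · have h0 : ∀ a : ℕ, a = 0 → ∀ y : PC f K B a, y = 0 := by
        rintro a rfl y
        exact PC_zero h y
      refine ⟨0, ?_⟩
      rw [map_zero]
      exact (h0 _ (by omega) x).symm
  ex0 := by
    intro x hx
    rw [augA_apply, Prod.mk_eq_zero] at hx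
    exact exact_top h hx.2

end

/-- **The chain maps.** -/
theorem exists_maps {H Λ U V : Type} [Group H] [Countable H] [Group Λ] [DecidableEq U] [MulAction Λ U] [DecidableEq V]
    [MulAction H V] {f : H → Λ} {K B : Set (Finset U)} {n : ℕ} {X : Set (Finset V)}
    (h : Crs f K B) (hlow : ∀ j < n, ∀ w, Cocy K B j w → Cobd K B j w) {z : Finset U →₀ ZMod 2} (hz : Cocy K B n z)
    (hz' : ¬ Cobd K B n z) {Z : Finset (Finset U →₀ ZMod 2)}
    (hZ : ∀ g : Λ, ∃ w ∈ Z, Cocy K B n w ∧ Cobd K B n (trn g z + w))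
    (hX : SCx H X (∅ : Set (Finset V))) (hac : Acyc X) :
    ∃ (φ : ∀ p, CX X p →ₗ[ZMod 2] PC f K B (n + 1 - p)) (ψ : ∀ p, PC f K B (n + 1 - p) →ₗ[ZMod 2] CX X p ⊗[ZMod 2] (H → ZMod 2))
      (s : ∀ p, CX X p →ₗ[ZMod 2] CX X (p + 1) ⊗[ZMod 2] (H → ZMod 2)),
      (∀ p g x, φ p (cRep hX (p + 1) g x) = PR h (n + 1 - p) g (φ p x)) ∧
      (∀ p g x, ψ p (PR h (n + 1 - p) g x) = ((cRep hX (p + 1)).tprod (ell H)) g (ψ p x)) ∧
      (∀ p g x, s p (cRep hX (p + 1) g x) = ((cRep hX (p + 1 + 1)).tprod (ell H)) g (s p x)) ∧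
      (∀ p x, dP h (n + 1 - (p + 1)) (n + 1 - p) (φ (p + 1) x) = φ p (bdX X (p + 1) x)) ∧
      (∀ p x, (bdX X (p + 1)).rTensor (H → ZMod 2) (ψ (p + 1) x) = ψ p (dP h (n + 1 - (p + 1)) (n + 1 - p) x)) ∧
      (∀ p x, (bdX X (p + 1 + 1)).rTensor (H → ZMod 2) (s (p + 1) x) =
        (ψ (p + 1) (φ (p + 1) x) + x ⊗ₜ[ZMod 2] (fun _ => 1)) + s p (bdX X (p + 1) x)) := by
  have hCX := cpx_X hX
  have heX := exc_X hX hac
  have hPX : ∀ p, Prj (cRep hX (p + 1)) := fun p => (loc_cRep hX (p + 1)).prj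
  have hR := cpx_A h n
  have heR := exc_A h hlow
  have hPR : ∀ p, Prj (PR h (n + 1 - p)) := fun p => (loc_PR h (n + 1 - p)).prj
  have hCT := hCX.rTensor (ell H)
  have heT := heX.rTensor hCX.dd hCX.ed (H → ZMod 2)
  obtain ⟨x₀, hx₀, hx₁⟩ := exists_a0 h hz hZ
  obtain ⟨lam, hlam⟩ := exists_lam hz'
  -- the map `φ`
  obtain ⟨φ, hφ1, hφ2, hφ3⟩ := exists_chain hCX hPX hR heR
    (LinearMap.toSpanSingleton (ZMod 2) (PC f K B (n + 1 + 1) × (H → HA K B n)) (0, fun _ => Submodule.Quotient.mk z))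
    (by
      intro g x
      rw [LinearMap.toSpanSingleton_apply, LinearMap.toSpanSingleton_apply, map_smul]
      refine congrArg (x • ·) ?_
      refine Prod.ext ?_ rfl
      show (0 : PC f K B (n + 1 + 1)) = PR h (n + 1 + 1) g 0
      rw [map_zero])
    (by
      intro x
      refine ⟨augX X x • x₀, ?_⟩
      rw [map_smul, LinearMap.toSpanSingleton_apply, augA_apply]
      refine congrArg (augX X x • ·) (Prod.ext hx₀ hx₁))
  -- the map `ψ`
  obtain ⟨ψ, hψ1, hψ2, hψ3⟩ := exists_chain hR hPR hCT heT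
    ((TensorProduct.mk (ZMod 2) (ZMod 2) (H → ZMod 2) 1) ∘ₗ (lam.compLeft H) ∘ₗ
      LinearMap.snd (ZMod 2) (PC f K B (n + 1 + 1)) (H → HA K B n))
    (by
      rintro g ⟨x, u⟩
      rfl)
    (by
      intro x
      exact LinearMap.rTensor_surjective (H → ZMod 2) (aug_surj hX hac) _)
  -- the homotopy
  obtain ⟨s, hs1, hs2, hs3⟩ := exists_htpy hCX hPX hCT heT
    (fun p => ψ p ∘ₗ φ p + (TensorProduct.mk (ZMod 2) (CX X p) (H → ZMod 2)).flip (fun _ => 1))
    (by
      intro p g x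
      show ψ p (φ p (cRep hX (p + 1) g x)) + (cRep hX (p + 1) g x) ⊗ₜ[ZMod 2] (fun _ => 1) =
        ((cRep hX (p + 1)).tprod (ell H)) g (ψ p (φ p x) + x ⊗ₜ[ZMod 2] (fun _ => 1))
      rw [hφ1, hψ1, map_add]
      rfl)
    (by
      intro p x
      show (bdX X (p + 1)).rTensor (H → ZMod 2) (ψ (p + 1) (φ (p + 1) x) + x ⊗ₜ[ZMod 2] (fun _ => 1)) =
        ψ p (φ p (bdX X (p + 1) x)) + (bdX X (p + 1) x) ⊗ₜ[ZMod 2] (fun _ => 1)
      rw [map_add, LinearMap.rTensor_tmul]
      refine congrArg (· + _) ?_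
      rw [← hφ2]
      exact hψ2 p _)
    (by
      intro x
      show (augX X).rTensor (H → ZMod 2) (ψ 0 (φ 0 x) + x ⊗ₜ[ZMod 2] (fun _ => 1)) = 0
      have h1 := hψ3 (φ 0 x)
      have h2 := hφ3 x
      rw [map_add, LinearMap.rTensor_tmul]
      have h3 : (augX X).rTensor (H → ZMod 2) (ψ 0 (φ 0 x)) = augX X x ⊗ₜ[ZMod 2] (fun _ => 1) := by
        refine h1.trans ?_
        rw [h2]
        have h4 : (lam.compLeft H) (augX X x • (fun _ : H => (Submodule.Quotient.mk z : HA K B n))) =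
            augX X x • (fun _ => 1 : H → ZMod 2) := by
          rw [map_smul]
          refine congrArg (augX X x • ·) ?_
          funext a
          exact hlam
        show (1 : ZMod 2) ⊗ₜ[ZMod 2] ((lam.compLeft H) (augX X x • (fun _ : H => (Submodule.Quotient.mk z : HA K B n)))) = _
        rw [h4, ← TensorProduct.smul_tmul, smul_eq_mul, mul_one]
      rw [h3]
      exact add_self_tt _)
  exact ⟨φ, ψ, s, hφ1, hψ1, hs1, hφ2, hψ2, hs3⟩

end Pool.Agent.CF
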