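import Pool.Agent.CE.Bd
import Pool.Agent.CF.Defs
import Pool.Agent.CF.Ind

/-!
# Project CF: the exactness of the chains with coefficients in the division ring, finite orbit version
-/

set_option autoImplicit false
set_option linter.unusedSectionVars false

open Finset Pointwise
open scoped TensorProduct

namespace Pool.Agent.CF

open Pool.Agent.H37.TM Pool.Agent.H65.RM Pool.Agent.S10 Pool.Agent.S11 Pool.Agent.S14 Pool.Agent.CD
open Pool.Agent.CE hiding exists_maps exR_all crs_of exactBd_of_coarse
open Pool.Agent.H10.CI (CoarseEmb)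

/-- the data of the coarse embedding -/
theorem crs_of {H L U : Type} [Group H] [Group L] [DecidableEq U] [MulAction L U] {K B : Set (Finset U)} {n : ℕ}
    {f : H → L} (hf : CoarseEmb f) (hM : CohF L K B n) (hA : PAct L K B) : Crs f K B where
  emb := hf
  ne := hM.ne
  down := hM.down
  bd_sub := hM.bd_sub
  bd_down := hM.bd_down
  locfin := hM.locfin
  K_mem := hA.K_mem
  B_mem := hA.B_mem
  prop := by
    intro s hs t
    obtain ⟨u, hu⟩ := hM.ne s hs
    have h1 : {g : L | g • s = t} ⊆ ⋃ w ∈ (t : Set U), {g : L | g • u = w} := by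
      intro g hg
      have h2 : g • u ∈ t := by
        rw [← show g • s = t from hg]
        exact smul_mem_smul_finset hu
      exact Set.mem_biUnion (mem_coe.2 h2) rfl
    exact (t.finite_toSet.biUnion fun w _ => hA.proper u w (hM.down s hs {u} (singleton_subset_iff.2 hu)
      (singleton_nonempty u))).subset h1

/-- **The exactness of the chains with coefficients in the division ring** -/
theorem exactBd_of_coarse {H V U L : Type} [Group H] [Countable H] [DecidableEq V] [MulAction H V] [Group L] [DecidableEq U]
    [MulAction L U] {X : Set (Finset V)} {K B : Set (Finset U)} {n : ℕ} (P : LPack H) (hX : FreeX H X) (hac : Acyc X)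
    {f : H → L} (hf : CoarseEmb f) (hM : CohF L K B n) (hA : PAct L K B) {i : ℕ} (hi : n < 2 * i) :
    ExactBd X (lft P.ι) (i + 1) := by
  have h := crs_of hf hM hA
  obtain ⟨z, hz, hz', Z, hZ⟩ := hM.cls
  have hXs := scx_of_freeX hX
  have hdim : ∃ N, ∀ s ∈ X, s.card ≤ N := by
    obtain ⟨F, hF⟩ := hX.fin
    refine ⟨F.sup Finset.card, fun s hs => ?_⟩
    obtain ⟨g, hg⟩ := hF s hs
    have := Finset.le_sup (f := Finset.card) hg
    rwa [card_smul_finset] at this
  refine exactBd_of_exR hXs ?_
  refine exR_of_equiv (τ' := (lft P.ι).tprod (Representation.trivial (ZMod 2) H (ZMod 2))) (TensorProduct.rid (ZMod 2) P.D).symm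
    (fun g w => ?_) ?_
  · rw [LinearEquiv.symm_apply_eq, TensorProduct.rid_symm_apply, Representation.tprod_apply, TensorProduct.map_tmul,
      TensorProduct.rid_tmul]
    exact (one_smul (ZMod 2) _).symm
  · refine exR_all h hM.low hz hz' hZ hXs hac hdim (lft P.ι) (fun Y _ _ σ q hq => ?_) i hi (ZMod 2) _
    exact exR_of_ctl h _ (ctl_square h _ q fun q' hq' => ctlExact_of_flat h (flat_sq P.flat) q'
      fun w hw1 hw2 => hM.low q' (by omega) w ⟨hw1, hw2⟩)

end Pool.Agent.CF
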