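import Pool.Agent.H37.TM.TotB

/-!
# Project CF, Lefschetz duality (1): the sums over the top simplices

`T_k` = finite functions of the pairs `(s, t)` of degree `k` (`MX.IsTot`).  The map `T_k → C_k`, `z ↦ (s ↦ ∑ t, z (s, t))`
(`s` with `k + 1` vertices) is a chain map and a quasi-isomorphism.
-/

set_option autoImplicit false
set_option linter.unusedSectionVars false

open Finset

namespace Pool.Agent.CF.LD

open Pool.Agent.H37.TM.TotX

variable {V : Type} [DecidableEq V] {n : ℕ} (M : MX V n)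

/-- filling all the columns of size `m + 1` -/
theorem col_step (k m : ℕ) {z : Finset V × Finset V → ZMod 2} (hz : M.IsTot k z)
    (hm : ∀ p, z p ≠ 0 → p.1.card ≤ m + 1)
    (hcol : ∀ s : Finset V, s.card = m + 1 → ∃ y : Finset V → ZMod 2,
      (∀ t, y t ≠ 0 → t ∈ M.int ∧ s ⊆ t ∧ t.card + 1 + k = m + 1 + n) ∧
      ∀ t ∈ M.faces, s ⊆ t → z (s, t) = cob s y t) :
    ∃ b, M.IsTot (k + 1) b ∧ (∀ p, (z + M.D b) p ≠ 0 → p.1.card ≤ m) ∧ ∀ p, b p ≠ 0 → p.1.card = m + 1 := by
  classical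
  choose! y hy1 hy2 using hcol
  set b : Finset V × Finset V → ZMod 2 := fun p =>
    if p.1.card = m + 1 ∧ (∃ t, z (p.1, t) ≠ 0) then y p.1 p.2 else 0 with hb
  have hb0 : ∀ p, b p ≠ 0 → p.1.card = m + 1 ∧ (∃ t, z (p.1, t) ≠ 0) ∧ y p.1 p.2 ≠ 0 := by
    intro p hp
    simp only [hb] at hp
    split_ifs at hp with h
    · exact ⟨h.1, h.2, hp⟩
    · exact absurd rfl hp
  have hbT : M.IsTot (k + 1) b := by
    constructor
    · have h1 : Function.support b ⊆ ⋃ p ∈ Function.support z,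
          ({p.1} : Set (Finset V)) ×ˢ {t | t ∈ M.faces ∧ p.1 ⊆ t} := by
        rintro ⟨s, t⟩ h
        obtain ⟨h1, ⟨t', h2⟩, h3⟩ := hb0 _ h
        simp only [Set.mem_iUnion, exists_prop]
        obtain ⟨g1, g2, _⟩ := hy1 s h1 t h3
        exact ⟨(s, t'), h2, rfl, M.int_sub g1, g2⟩
      refine Set.Finite.subset ?_ h1
      refine hz.1.biUnion fun p hp => ?_
      exact (Set.finite_singleton _).prod (M.fin_up (hz.2 p hp).1)
    · rintro ⟨s, t⟩ h
      obtain ⟨h1, ⟨t', h2⟩, h3⟩ := hb0 _ h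
      obtain ⟨g1, g2, g3⟩ := hy1 s h1 t h3
      refine ⟨(hz.2 _ h2).1, g2, g1, ?_⟩
      simp only at h1 ⊢
      omega
  refine ⟨b, hbT, ?_, fun p hp => (hb0 p hp).1⟩
  rintro ⟨s, t⟩ h
  by_contra hlt
  simp only [not_le] at hlt
  have hg := (M.isTot_add hz (M.isTot_D hbT)).2 _ h
  obtain ⟨hs, hst, htI, _⟩ := hg
  simp only at hs hst htI
  have htF := M.int_sub htI
  apply h
  rw [Pi.add_apply, M.D_of hs hst htF]
  have e1 : ∀ w ∈ t \ s, b (insert w s, t) + b (s, t.erase w) = b (s, t.erase w) := by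
    intro w hw
    rw [Finset.mem_sdiff] at hw
    have : b (insert w s, t) = 0 := by
      by_contra hne
      have := (hb0 _ hne).1
      simp only at this
      rw [Finset.card_insert_of_notMem hw.2] at this
      omega
    rw [this, zero_add]
  rw [Finset.sum_congr rfl e1]
  by_cases hc : s.card = m + 1 ∧ ∃ t, z (s, t) ≠ 0
  · have e2 : ∀ w ∈ t \ s, b (s, t.erase w) = y s (t.erase w) := by
      intro w _
      simp only [hb]
      rw [if_pos hc]
    rw [Finset.sum_congr rfl e2, hy2 s hc.1 t htF hst]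
    exact zmod2_add_self _
  · have e2 : ∀ w ∈ t \ s, b (s, t.erase w) = 0 := by
      intro w _
      simp only [hb]
      rw [if_neg hc]
    rw [Finset.sum_congr rfl e2, Finset.sum_const_zero, add_zero]
    by_contra hne
    have h3 := hm _ hne
    simp only at h3
    exact hc ⟨by omega, t, hne⟩

/-- exactness for the cycles whose first simplices have size at most `k` -/
theorem exact_aux (k : ℕ) : ∀ m ≤ k, ∀ z : Finset V × Finset V → ZMod 2, M.IsTot k z →
    M.D z = 0 → (∀ p, z p ≠ 0 → p.1.card ≤ m) →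
      ∃ b, M.IsTot (k + 1) b ∧ M.D b = z ∧ ∀ p, b p ≠ 0 → p.1.card ≤ k := by
  intro m
  induction m with
  | zero =>
    intro _ z hz _ h0
    have : z = 0 := by
      funext p
      by_contra hne
      have h1 := h0 p hne
      have h2 := Finset.card_pos.2 (hz.2 p hne).1
      omega
    exact ⟨0, M.isTot_zero _, by rw [this]; exact M.D_zero, fun p hp => absurd rfl hp⟩
  | succ m ih =>
    intro hmk z hz hD hcard
    obtain ⟨b, hb, hb', hb''⟩ := col_step M k m hz hcard (by
      intro s hs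
      by_cases h0 : ∃ t, z (s, t) ≠ 0
      · obtain ⟨t0, ht0⟩ := h0
        obtain ⟨g1, g2, g3, g4⟩ := hz.2 _ ht0
        simp only at g1 g2 g3 g4
        have hsF : s ∈ M.faces := M.down t0 (M.int_sub g3) s g2 g1
        have hpos : 0 < t0.card := lt_of_lt_of_le (Finset.card_pos.2 g1) (Finset.card_le_card g2)
        obtain ⟨j, hj⟩ : ∃ j, m + 1 + n = j + 1 + k := ⟨t0.card - 1, by omega⟩
        obtain ⟨y, hy1, hy2⟩ := M.loc s hsF j (by omega) (fun t => z (s, t)) (by
          intro t ht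
          obtain ⟨_, f2, f3, f4⟩ := hz.2 _ ht
          simp only at f2 f3 f4
          exact ⟨f3, f2, by omega⟩) (by
          intro t ht hst
          have h1 : M.D z (s, t) = 0 := by rw [hD]; rfl
          rw [M.D_of g1 hst ht] at h1
          rw [← h1]
          unfold cob
          refine Finset.sum_congr rfl fun w hw => ?_
          rw [Finset.mem_sdiff] at hw
          have : z (insert w s, t) = 0 := by
            by_contra hne
            have := hcard _ hne
            simp only at this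
            rw [Finset.card_insert_of_notMem hw.2] at this
            omega
          rw [this, zero_add])
        refine ⟨y, fun t ht => ?_, hy2⟩
        obtain ⟨f1, f2, f3⟩ := hy1 t ht
        exact ⟨f1, f2, by omega⟩
      · push Not at h0
        refine ⟨0, fun t ht => absurd rfl ht, fun t _ _ => ?_⟩
        rw [h0 t]; simp [cob])
    obtain ⟨b', hb1, hb2, hb3⟩ := ih (by omega) (z + M.D b) (M.isTot_add hz (M.isTot_D hb))
      (by rw [M.D_add, hD, M.D_D, add_zero]) hb'
    refine ⟨b' + b, M.isTot_add hb1 hb, ?_, fun p hp => ?_⟩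
    · rw [M.D_add, hb2, add_assoc]
      have : M.D b + M.D b = 0 := by
        funext p; exact zmod2_add_self _
      rw [this, add_zero]
    · by_cases h1 : b' p = 0
      · have h2 := hb'' p fun h3 => hp (by rw [Pi.add_apply, h1, h3, add_zero])
        omega
      · exact hb3 p h1

/-- a cycle of the pairs with vanishing sums over the top simplices is a boundary -/
theorem exact_top (k : ℕ) {z : Finset V × Finset V → ZMod 2} (hz : M.IsTot k z) (hD : M.D z = 0)
    (h0 : ∀ s : Finset V, s.card = k + 1 → ∑ᶠ t, z (s, t) = 0) :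
    ∃ b, M.IsTot (k + 1) b ∧ M.D b = z ∧ ∀ p, b p ≠ 0 → p.1.card ≤ k + 1 := by
  classical
  obtain ⟨b2, hb2, hb2', hb2''⟩ := col_step M k k hz (fun p hp => MX.Good.card_le M (hz.2 p hp)) (by
    intro s hs
    by_cases h1 : ∃ t, z (s, t) ≠ 0
    · obtain ⟨t0, ht0⟩ := h1
      obtain ⟨g1, g2, g3, g4⟩ := hz.2 _ ht0
      have hsF : s ∈ M.faces := M.down t0 (M.int_sub g3) s g2 g1
      obtain ⟨y, hy1, hy2⟩ := (M.top s hsF (fun t => z (s, t)) (by
        intro t ht
        obtain ⟨_, f2, f3, f4⟩ := hz.2 _ ht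
        simp only at f2 f3 f4
        exact ⟨f3, f2, by omega⟩)).1 (h0 s hs)
      refine ⟨y, fun t ht => ?_, hy2⟩
      obtain ⟨f1, f2, f3⟩ := hy1 t ht
      exact ⟨f1, f2, by omega⟩
    · push Not at h1
      refine ⟨0, fun t ht => absurd rfl ht, fun t _ _ => ?_⟩
      rw [h1 t]; simp [cob])
  obtain ⟨b3, hb3, hb3', hb3''⟩ := exact_aux M k k le_rfl _ (M.isTot_add hz (M.isTot_D hb2))
    (by rw [M.D_add, hD, M.D_D, add_zero]) hb2'
  refine ⟨b2 + b3, M.isTot_add hb2 hb3, ?_, fun p hp => ?_⟩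
  · rw [M.D_add, hb3']
    funext p
    simp only [Pi.add_apply]
    have h2 := zmod2_add_self (M.D b2 p)
    linear_combination h2
  · by_cases h1 : b2 p = 0
    · have h2 := hb3'' p fun h3 => hp (by rw [Pi.add_apply, h1, h3, add_zero])
      omega
    · exact (hb2'' p h1).le

/-- the sums over the top simplices: a chain map -/
theorem eps_D {k : ℕ} {z : Finset V × Finset V → ZMod 2} (hz : M.IsTot k z)
    {s' : Finset V} (hs' : s'.Nonempty) (hk : s'.card = k)
    {U : Finset V} (hU : ∀ p, z p ≠ 0 → ∀ t ∈ M.faces, p.2 ⊆ t → t ⊆ U) :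
    ∑ w ∈ U \ s', ∑ t ∈ U.powerset, z (insert w s', t) = ∑ t ∈ U.powerset, M.D z (s', t) := by
  classical
  rw [Finset.sum_comm]
  by_cases hsF : s' ∈ M.faces
  swap
  · refine Eq.trans (Finset.sum_eq_zero fun t _ => Finset.sum_eq_zero fun w _ => ?_)
      (Finset.sum_eq_zero fun t _ => ?_).symm
    · by_contra hne
      obtain ⟨_, g2, g3, _⟩ := hz.2 _ hne
      exact hsF (M.down t (M.int_sub g3) s' ((Finset.subset_insert _ _).trans g2) hs')
    · exact M.D_of_not fun h => hsF (M.down t h.2.2 s' h.2.1 hs')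
  have hx : ∀ t ∈ U.powerset, ∑ w ∈ U \ s', z (insert w s', t) =
      M.D z (s', t) + if s' ⊆ t ∧ t ∈ M.faces then cob s' (fun t => z (s', t)) t else 0 := by
    intro t ht
    rw [Finset.mem_powerset] at ht
    split_ifs with hc
    · rw [M.D_of hs' hc.1 hc.2, Finset.sum_add_distrib]
      have h2 : ∑ w ∈ U \ s', z (insert w s', t) = ∑ w ∈ t \ s', z (insert w s', t) := by
        symm
        refine Finset.sum_subset (Finset.sdiff_subset_sdiff ht subset_rfl) ?_
        intro w hw hwt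
        by_contra hne
        obtain ⟨_, g2, _, _⟩ := hz.2 _ hne
        rw [Finset.mem_sdiff] at hw
        exact hwt (Finset.mem_sdiff.2 ⟨g2 (Finset.mem_insert_self _ _), hw.2⟩)
      rw [h2]
      unfold cob
      rw [add_assoc, zmod2_add_self, add_zero]
    · rw [M.D_of_not (fun h => hc ⟨h.2.1, h.2.2⟩), add_zero]
      refine Finset.sum_eq_zero fun w _ => ?_
      by_contra hne
      obtain ⟨_, g2, g3, _⟩ := hz.2 _ hne
      exact hc ⟨(Finset.subset_insert _ _).trans g2, M.int_sub g3⟩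
  rw [Finset.sum_congr rfl hx, Finset.sum_add_distrib]
  have hsz : ∀ t, z (s', t) ≠ 0 → t ∈ M.int ∧ s' ⊆ t ∧ t.card = n := by
    intro t ht
    obtain ⟨_, g2, g3, g4⟩ := hz.2 _ ht
    simp only at g2 g3 g4
    exact ⟨g3, g2, by omega⟩
  have hcob : ∀ t, (if s' ⊆ t ∧ t ∈ M.faces then cob s' (fun t => z (s', t)) t else 0) ≠ 0 →
      t ∈ M.faces ∧ s' ⊆ t ∧ ∃ w ∈ t \ s', z (s', t.erase w) ≠ 0 := by
    intro t ht
    split_ifs at ht with hc
    · obtain ⟨w, hw, hne⟩ := Finset.exists_ne_zero_of_sum_ne_zero ht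
      exact ⟨hc.2, hc.1, w, hw, hne⟩
    · exact absurd rfl ht
  have h5 : ∑ t ∈ U.powerset, (if s' ⊆ t ∧ t ∈ M.faces then cob s' (fun t => z (s', t)) t else 0) = 0 := by
    rw [← finsum_eq_powerset (U := U) (x := fun t =>
      if s' ⊆ t ∧ t ∈ M.faces then cob s' (fun t => z (s', t)) t else 0)]
    · refine (M.top s' hsF _ ?_).2 ⟨fun t => z (s', t), hsz, ?_⟩
      · intro t ht
        obtain ⟨g1, g2, w, hw, hne⟩ := hcob t ht
        obtain ⟨f1, f2, f3⟩ := hsz _ hne
        rw [Finset.mem_sdiff] at hw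
        refine ⟨M.int_up f1 (Finset.erase_subset _ _) g1, g2, ?_⟩
        rw [Finset.card_erase_of_mem hw.1] at f3
        have := Finset.card_pos.2 ⟨w, hw.1⟩
        omega
      · intro t ht hst
        rw [if_pos ⟨hst, ht⟩]
    · intro t ht
      obtain ⟨g1, g2, w, hw, hne⟩ := hcob t ht
      exact hU _ hne t g1 (Finset.erase_subset _ _)
  rw [h5, add_zero]

/-- the sums over the top simplices: a chain map -/
theorem eps_chain {k : ℕ} {x : Finset V × Finset V → ZMod 2} (hx : M.IsTot (k + 1) x) {c : Finset V →₀ ZMod 2}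
    (hc : ∀ s : Finset V, s.card = k + 2 → ∑ᶠ t, x (s, t) = c s) {s' : Finset V} (hs' : s'.card = k + 1) :
    ∑ᶠ t, M.D x (s', t) = sbd c s' := by
  classical
  have hne : s'.Nonempty := Finset.card_pos.1 (by omega)
  obtain ⟨U0, hU0⟩ := M.exists_U hx
  set U := U0 ∪ c.support.biUnion id with hUdef
  have hU : ∀ p, x p ≠ 0 → ∀ t ∈ M.faces, p.2 ⊆ t → t ⊆ U := fun p hp t ht hpt =>
    (hU0 p hp t ht hpt).trans Finset.subset_union_left
  have hxU : ∀ s t, x (s, t) ≠ 0 → t ⊆ U := fun s t h =>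
    hU _ h t (M.int_sub (hx.2 _ h).2.2.1) subset_rfl
  have hDU : ∀ t, M.D x (s', t) ≠ 0 → t ⊆ U := by
    intro t h
    have hg := (M.isTot_D hx).2 _ h
    have htF := M.int_sub hg.2.2.1
    rw [M.D_of hg.1 hg.2.1 htF] at h
    obtain ⟨w, hw, hne⟩ := Finset.exists_ne_zero_of_sum_ne_zero h
    by_cases h2 : x (insert w s', t) = 0
    · have h3 : x (s', t.erase w) ≠ 0 := by
        intro h3; rw [h2, h3, add_zero] at hne; exact hne rfl
      exact hU _ h3 t htF (Finset.erase_subset _ _)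
    · exact hU _ h2 t htF subset_rfl
  rw [finsum_eq_powerset (U := U) hDU, ← eps_D M hx hne hs' hU, sbd_apply c U (fun s hs =>
    (Finset.subset_biUnion_of_mem id hs).trans Finset.subset_union_right)]
  refine Finset.sum_congr rfl fun w hw => ?_
  rw [Finset.mem_sdiff] at hw
  rw [← hc (insert w s') (by rw [Finset.card_insert_of_notMem hw.2, hs']),
    finsum_eq_powerset (U := U) (fun t h => hxU _ t h)]

/-- lifting a chain to the top simplices -/
theorem exists_lift (k : ℕ) {c : Finset V →₀ ZMod 2} (hc : ∀ s, c s ≠ 0 → s ∈ M.faces ∧ s.card = k + 1) :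
    ∃ z, M.IsTot k z ∧ ∀ s, ∑ᶠ t, z (s, t) = c s := by
  classical
  have htop : ∀ s : Finset V, ∃ t : Finset V, s ∈ M.faces → t ∈ M.int ∧ s ⊆ t ∧
      t.card = n + 1 := by
    intro s
    by_cases hs : s ∈ M.faces
    · obtain ⟨t, h1, h2, h3⟩ := M.ex_top s hs
      exact ⟨t, fun _ => ⟨h1, h2, h3⟩⟩
    · exact ⟨∅, fun h => absurd h hs⟩
  choose τ hτ using htop
  have hne : ∀ p : Finset V × Finset V, (if p.2 = τ p.1 then c p.1 else 0) ≠ 0 → p.2 = τ p.1 ∧ c p.1 ≠ 0 := by
    intro p hp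
    split_ifs at hp with h
    · exact ⟨h, hp⟩
    · exact absurd rfl hp
  refine ⟨fun p => if p.2 = τ p.1 then c p.1 else 0, ⟨?_, ?_⟩, fun s => ?_⟩
  · refine ((Finset.finite_toSet c.support).image (fun s => (s, τ s))).subset ?_
    rintro ⟨s, t⟩ h
    obtain ⟨h2, h3⟩ := hne _ h
    simp only at h2 h3
    exact ⟨s, Finsupp.mem_support_iff.2 h3, by rw [h2]⟩
  · rintro ⟨s, t⟩ h
    obtain ⟨h2, h3⟩ := hne _ h
    simp only at h2 h3
    obtain ⟨h4, h5⟩ := hc s h3
    obtain ⟨g1, g2, g3⟩ := hτ s h4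
    refine ⟨Finset.card_pos.1 (by simp only; omega), by rw [h2]; exact g2, by rw [h2]; exact g1, ?_⟩
    simp only
    rw [h2, g3]; omega
  · rw [finsum_eq_single _ (τ s)]
    · simp
    · intro t ht
      simp [ht]

/-- a function of the pairs which is zero on the large first simplices has no sums over the top simplices -/
theorem sum_small {z : Finset V × Finset V → ZMod 2} {k : ℕ} (h : ∀ p, z p ≠ 0 → p.1.card ≤ k) {s : Finset V}
    (hs : s.card = k + 1) : ∑ᶠ t, z (s, t) = 0 := by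
  have h1 : ∀ t, z (s, t) = 0 := by
    intro t
    by_contra hne
    have := h _ hne
    simp only at this
    omega
  simp [h1]

theorem fin_row {z : Finset V × Finset V → ZMod 2} (h : (Function.support z).Finite) (s : Finset V) :
    (Function.support fun t => z (s, t)).Finite := by
  refine Set.Finite.of_finite_image (f := fun t => (s, t)) (h.subset ?_) ?_
  · rintro _ ⟨t, ht, rfl⟩
    exact ht
  · intro a _ b _ hab
    exact (Prod.mk.inj hab).2

theorem sum_row_add {z z' : Finset V × Finset V → ZMod 2} (h : (Function.support z).Finite)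
    (h' : (Function.support z').Finite) (s : Finset V) :
    ∑ᶠ t, (z + z') (s, t) = ∑ᶠ t, z (s, t) + ∑ᶠ t, z' (s, t) :=
  finsum_add_distrib (fin_row h s) (fin_row h' s)

/-- **injectivity** -/
theorem eps_inj (k : ℕ) {z : Finset V × Finset V → ZMod 2} (hz : M.IsTot k z) (hD : M.D z = 0)
    {b₀ : Finset V →₀ ZMod 2} (hb₀ : ∀ s, b₀ s ≠ 0 → s ∈ M.faces ∧ s.card = k + 2)
    (h0 : ∀ s : Finset V, s.card = k + 1 → ∑ᶠ t, z (s, t) = sbd b₀ s) :
    ∃ b, M.IsTot (k + 1) b ∧ M.D b = z := by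
  obtain ⟨b1, hb1, hb1'⟩ := exists_lift M (k + 1) hb₀
  obtain ⟨b, hb, hbD, -⟩ := exact_top M k (M.isTot_add hz (M.isTot_D hb1))
    (by rw [M.D_add, hD, M.D_D, add_zero]) (fun s hs => by
      rw [sum_row_add hz.1 (M.isTot_D hb1).1, h0 s hs, eps_chain M hb1 (fun s _ => hb1' s) hs]
      exact zmod2_add_self _)
  refine ⟨b + b1, M.isTot_add hb hb1, ?_⟩
  rw [M.D_add, hbD]
  funext p
  simp only [Pi.add_apply]
  have h2 := zmod2_add_self (M.D b1 p)
  linear_combination h2

/-- **surjectivity** -/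
theorem eps_surj (k : ℕ) {c : Finset V →₀ ZMod 2} (hc : ∀ s, c s ≠ 0 → s ∈ M.faces ∧ s.card = k + 1)
    (hc' : ∀ s : Finset V, s.Nonempty → sbd c s = 0) :
    ∃ z, M.IsTot k z ∧ M.D z = 0 ∧ ∀ s : Finset V, s.card = k + 1 → ∑ᶠ t, z (s, t) = c s := by
  obtain ⟨z1, hz1, hz1'⟩ := exists_lift M k hc
  rcases k with _ | k
  · refine ⟨z1, hz1, ?_, fun s _ => hz1' s⟩
    funext p
    obtain ⟨s, t⟩ := p
    show M.D z1 (s, t) = 0
    by_cases h : s.Nonempty ∧ s ⊆ t ∧ t ∈ M.faces
    swap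
    · exact M.D_of_not h
    rw [M.D_of h.1 h.2.1 h.2.2]
    refine Finset.sum_eq_zero fun w hw => ?_
    rw [Finset.mem_sdiff] at hw
    have h1 : z1 (insert w s, t) = 0 := by
      by_contra hne
      have h2 := MX.Good.card_le M (hz1.2 _ hne)
      simp only at h2
      rw [Finset.card_insert_of_notMem hw.2] at h2
      have h3 := Finset.card_pos.2 h.1
      omega
    have h2 : z1 (s, t.erase w) = 0 := by
      by_contra hne
      obtain ⟨-, -, -, h3⟩ := hz1.2 _ hne
      simp only at h3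
      rw [Finset.card_erase_of_mem hw.1] at h3
      have h4 := M.card_le t h.2.2
      have h5 := Finset.card_pos.2 h.1
      have h6 := Finset.card_pos.2 ⟨w, hw.1⟩
      omega
    rw [h1, h2, add_zero]
  · obtain ⟨b, hb, hbD, hb'⟩ := exact_top M k (M.isTot_D hz1) (M.D_D z1) (fun s hs => by
      rw [eps_chain M hz1 (fun s _ => hz1' s) hs]
      exact hc' s (Finset.card_pos.1 (by omega)))
    refine ⟨z1 + b, M.isTot_add hz1 hb, ?_, fun s hs => ?_⟩
    · rw [M.D_add, hbD]
      funext p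
      exact zmod2_add_self _
    · rw [sum_row_add hz1.1 hb.1, hz1', sum_small hb' hs, add_zero]

end Pool.Agent.CF.LD
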