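import Pool.Agent.CF.MA

/-!
# Project CF, Lefschetz duality (2): the pairs whose first simplex is a vertex

The map from `T_k` to the cochains on the simplices with `n + 1 - k` vertices, `z ↦ (t ↦ ∑ v ∈ t, z ({v}, t))`, is a
quasi-isomorphism (the simplices are cones).
-/

set_option autoImplicit false

open Finset

namespace Pool.Agent.CF.LD

open Pool.Agent.H37.TM.TotX

variable {V : Type} [DecidableEq V] {n : ℕ} (M : MX V n)

/-- the sums over the vertices: a chain map -/
theorem be_D (b : Finset V × Finset V → ZMod 2) {t : Finset V} (ht : t ∈ M.faces) :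
    ∑ v ∈ t, M.D b ({v}, t) = ∑ w ∈ t, ∑ v ∈ t.erase w, b ({v}, t.erase w) := by
  have e1 : ∀ v ∈ t, M.D b ({v}, t) = ∑ w ∈ t.erase v, (b (insert w {v}, t) + b ({v}, t.erase w)) := by
    intro v hv
    rw [M.D_of (singleton_nonempty v) (singleton_subset_iff.2 hv) ht, sdiff_singleton_eq_erase]
  rw [sum_congr rfl e1]
  simp only [sum_add_distrib]
  rw [sum_pairs_symm t (fun v w => b (insert w {v}, t)) (fun v w => by
    show b (insert w {v}, t) = b (insert v {w}, t)
    rw [pair_comm]), zero_add]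
  refine sum_comm' fun v w => ?_
  simp only [mem_erase]
  tauto

theorem be_D_zero {b : Finset V × Finset V → ZMod 2} (hb : ∀ v t, b ({v}, t) = 0) (t : Finset V) :
    ∑ v ∈ t, M.D b ({v}, t) = 0 := by
  by_cases ht : t ∈ M.faces
  · rw [be_D M b ht]
    exact sum_eq_zero fun w _ => sum_eq_zero fun v _ => hb v _
  · exact sum_eq_zero fun v _ => M.D_of_not fun h => ht h.2.2

/-- filling the rows of size `m` -/
theorem row_step (ap : Finset V → V) (hap : ∀ t : Finset V, t.Nonempty → ap t ∈ t) (k m : ℕ)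
    {z : Finset V × Finset V → ZMod 2} (hz : M.IsTot k z) (hD : M.D z = 0) (hm : ∀ p, z p ≠ 0 → m ≤ p.2.card)
    (h0 : ∀ t, ∑ v ∈ t, z ({v}, t) = 0) :
    ∃ b, M.IsTot (k + 1) b ∧ (∀ v t, b ({v}, t) = 0) ∧ ∀ p, (z + M.D b) p ≠ 0 → m + 1 ≤ p.2.card := by
  classical
  set b : Finset V × Finset V → ZMod 2 := fun p =>
    if p.2.card = m ∧ ap p.2 ∈ p.1 ∧ (p.1.erase (ap p.2)).Nonempty then z (p.1.erase (ap p.2), p.2) else 0 with hb
  have hbv : ∀ s t, t.card = m → ap t ∈ s → (s.erase (ap t)).Nonempty → b (s, t) = z (s.erase (ap t), t) := by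
    intro s t h1 h2 h3
    simp only [hb]
    rw [if_pos ⟨h1, h2, h3⟩]
  have hb0 : ∀ s t, b (s, t) ≠ 0 → t.card = m ∧ ap t ∈ s ∧ (s.erase (ap t)).Nonempty ∧ z (s.erase (ap t), t) ≠ 0 := by
    intro s t hp
    simp only [hb] at hp
    split_ifs at hp with h
    · exact ⟨h.1, h.2.1, h.2.2, hp⟩
    · exact absurd rfl hp
  have hbT : M.IsTot (k + 1) b := by
    constructor
    · refine (hz.1.image fun p => (insert (ap p.2) p.1, p.2)).subset ?_
      rintro ⟨s, t⟩ h
      obtain ⟨h1, h2, h3, h4⟩ := hb0 s t h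
      exact ⟨(s.erase (ap t), t), h4, by simp only [insert_erase h2]⟩
    · rintro ⟨s, t⟩ h
      obtain ⟨h1, h2, h3, h4⟩ := hb0 s t h
      obtain ⟨g1, g2, g3, g4⟩ := hz.2 _ h4
      simp only at g1 g2 g3 g4
      have h5 : ap t ∈ t := hap t (g1.mono g2)
      refine ⟨⟨_, h2⟩, ?_, g3, ?_⟩
      · simp only
        rw [← insert_erase h2]
        exact insert_subset h5 g2
      · simp only
        rw [card_erase_of_mem h2] at g4
        have := card_pos.2 ⟨_, h2⟩
        omega
  refine ⟨b, hbT, ?_, ?_⟩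
  · intro v t
    by_contra h
    obtain ⟨h1, h2, h3, h4⟩ := hb0 _ _ h
    rw [mem_singleton.1 h2] at h3
    simp at h3
  · rintro ⟨s, t⟩ h
    by_contra hlt
    simp only [not_le] at hlt
    obtain ⟨hs, hst, htI, _⟩ := (M.isTot_add hz (M.isTot_D hbT)).2 _ h
    simp only at hs hst htI
    have htF := M.int_sub htI
    apply h
    have hsmall : ∀ w ∈ t, ∀ s', b (s', t.erase w) = 0 := by
      intro w hw s'
      by_contra hne
      obtain ⟨h1, -⟩ := hb0 _ _ hne
      rw [card_erase_of_mem hw] at h1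
      have := card_pos.2 ⟨w, hw⟩
      omega
    have hzsmall : ∀ w ∈ t, ∀ s', z (s', t.erase w) = 0 := by
      intro w hw s'
      by_contra hne
      have h1 := hm _ hne
      simp only at h1
      rw [card_erase_of_mem hw] at h1
      have := card_pos.2 ⟨w, hw⟩
      omega
    have e1 : M.D b (s, t) = ∑ w ∈ t \ s, b (insert w s, t) := by
      rw [M.D_of hs hst htF]
      refine sum_congr rfl fun w hw => ?_
      rw [hsmall w (mem_sdiff.1 hw).1, add_zero]
    rw [Pi.add_apply, e1]
    by_cases hc : t.card = m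
    swap
    · have h1 : z (s, t) = 0 := by
        by_contra hne
        have := hm _ hne
        simp only at this
        omega
      rw [h1, zero_add]
      refine sum_eq_zero fun w _ => ?_
      by_contra hne
      exact hc (hb0 _ _ hne).1
    have ha : ap t ∈ t := hap t (hs.mono hst)
    have key : ∑ w ∈ t \ s, b (insert w s, t) = z (s, t) := by
      by_cases has : ap t ∈ s
      · -- the apex is a vertex of `s`
        have e2 : ∀ w ∈ t \ s, b (insert w s, t) = z (insert w (s.erase (ap t)), t) := by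
          intro w hw
          have hw' := mem_sdiff.1 hw
          have hne : ap t ≠ w := fun e => hw'.2 (e ▸ has)
          have h1 : (insert w s).erase (ap t) = insert w (s.erase (ap t)) := (erase_insert_of_ne hne.symm)
          rw [hbv _ _ hc (mem_insert_of_mem has) (by rw [h1]; exact insert_nonempty _ _), h1]
        rw [sum_congr rfl e2]
        have e3 : t \ s.erase (ap t) = insert (ap t) (t \ s) := by
          ext u
          simp only [mem_sdiff, mem_erase, mem_insert]
          constructor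
          · rintro ⟨h1, h2⟩
            by_cases hu : u = ap t
            · exact Or.inl hu
            · exact Or.inr ⟨h1, fun h3 => h2 ⟨hu, h3⟩⟩
          · rintro (rfl | ⟨h1, h2⟩)
            · exact ⟨ha, fun h3 => h3.1 rfl⟩
            · exact ⟨h1, fun h3 => h2 h3.2⟩
        have hnot : ap t ∉ t \ s := fun h3 => (mem_sdiff.1 h3).2 has
        have h5 : ∑ w ∈ t \ s.erase (ap t), z (insert w (s.erase (ap t)), t) = 0 := by
          by_cases hne : (s.erase (ap t)).Nonempty
          · have h6 : M.D z (s.erase (ap t), t) = 0 := by rw [hD]; rfl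
            rw [M.D_of hne ((erase_subset _ _).trans hst) htF] at h6
            rw [← h6]
            refine sum_congr rfl fun w hw => ?_
            rw [hzsmall w (mem_sdiff.1 hw).1, add_zero]
          · rw [not_nonempty_iff_eq_empty] at hne
            rw [hne, sdiff_empty]
            exact h0 t
        rw [e3, sum_insert hnot, insert_erase has] at h5
        exact ((CharTwo.add_eq_zero).1 h5).symm
      · rw [sum_eq_single (ap t)]
        · rw [hbv _ _ hc (mem_insert_self _ _) (by rw [erase_insert has]; exact hs), erase_insert has]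
        · intro w hw hwa
          by_contra hne
          obtain ⟨-, h2, -⟩ := hb0 _ _ hne
          rcases mem_insert.1 h2 with h3 | h3
          · exact hwa h3.symm
          · exact has h3
        · intro h1
          exact absurd (mem_sdiff.2 ⟨ha, has⟩) h1
    rw [key]
    exact zmod2_add_self _

theorem row_exact_aux (ap : Finset V → V) (hap : ∀ t : Finset V, t.Nonempty → ap t ∈ t) (k : ℕ) :
    ∀ e m, m + e = n + 2 → ∀ z : Finset V × Finset V → ZMod 2, M.IsTot k z → M.D z = 0 →
      (∀ p, z p ≠ 0 → m ≤ p.2.card) → (∀ t, ∑ v ∈ t, z ({v}, t) = 0) →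
      ∃ b, M.IsTot (k + 1) b ∧ M.D b = z ∧ ∀ v t, b ({v}, t) = 0 := by
  intro e
  induction e with
  | zero =>
    intro m hm z hz _ h1 _
    have : z = 0 := by
      funext p
      by_contra hne
      have h2 := h1 p hne
      have h3 := M.card_le _ (M.int_sub (hz.2 p hne).2.2.1)
      omega
    exact ⟨0, M.isTot_zero _, by rw [this]; exact M.D_zero, fun _ _ => rfl⟩
  | succ e ih =>
    intro m hm z hz hD h1 h2
    obtain ⟨b, hb, hb1, hb2⟩ := row_step M ap hap k m hz hD h1 h2
    obtain ⟨b', hb', hbD', hb1'⟩ := ih (m + 1) (by omega) (z + M.D b) (M.isTot_add hz (M.isTot_D hb))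
      (by rw [M.D_add, hD, M.D_D, add_zero]) hb2 (fun t => by
        simp only [Pi.add_apply]
        rw [sum_add_distrib, h2, be_D_zero M hb1, add_zero])
    refine ⟨b' + b, M.isTot_add hb' hb, ?_, fun v t => ?_⟩
    · rw [M.D_add, hbD', add_assoc]
      have : M.D b + M.D b = 0 := by
        funext p; exact zmod2_add_self _
      rw [this, add_zero]
    · rw [Pi.add_apply, hb1', hb1, add_zero]

/-- **injectivity** -/
theorem be_inj (ap : Finset V → V) (hap : ∀ t : Finset V, t.Nonempty → ap t ∈ t) (k : ℕ)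
    {z : Finset V × Finset V → ZMod 2} (hz : M.IsTot k z) (hD : M.D z = 0) (h0 : ∀ t, ∑ v ∈ t, z ({v}, t) = 0) :
    ∃ b, M.IsTot (k + 1) b ∧ M.D b = z ∧ ∀ v t, b ({v}, t) = 0 :=
  row_exact_aux M ap hap k (n + 2) 0 (by omega) z hz hD (fun _ _ => Nat.zero_le _) h0

/-- lifting a cochain -/
theorem exists_liftB (ap : Finset V → V) (hap : ∀ t : Finset V, t.Nonempty → ap t ∈ t) (k : ℕ)
    {f : Finset V → ZMod 2} (hfin : (Function.support f).Finite) (hf : ∀ t, f t ≠ 0 → t ∈ M.int ∧ t.card + k = n + 1) :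
    ∃ z, M.IsTot k z ∧ ∀ t, ∑ v ∈ t, z ({v}, t) = f t := by
  classical
  have hne : ∀ p : Finset V × Finset V, (if p.1 = {ap p.2} then f p.2 else 0) ≠ 0 → p.1 = {ap p.2} ∧ f p.2 ≠ 0 := by
    intro p hp
    split_ifs at hp with h
    · exact ⟨h, hp⟩
    · exact absurd rfl hp
  refine ⟨fun p => if p.1 = {ap p.2} then f p.2 else 0, ⟨?_, ?_⟩, fun t => ?_⟩
  · refine (hfin.image fun t => ({ap t}, t)).subset ?_
    rintro ⟨s, t⟩ h
    obtain ⟨h1, h2⟩ := hne _ h
    simp only at h1 h2
    exact ⟨t, h2, by simp only [h1]⟩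
  · rintro ⟨s, t⟩ h
    obtain ⟨h1, h2⟩ := hne _ h
    simp only at h1 h2
    obtain ⟨h3, h4⟩ := hf t h2
    subst h1
    refine ⟨singleton_nonempty _, ?_, h3, ?_⟩
    · exact singleton_subset_iff.2 (hap t (M.ne t (M.int_sub h3)))
    · simp only [card_singleton]
      omega
  · by_cases ht : t.Nonempty
    · rw [sum_eq_single (ap t)]
      · simp
      · intro v _ hv
        exact if_neg fun h => hv (singleton_injective h)
      · intro h
        exact absurd (hap t ht) h
    · rw [not_nonempty_iff_eq_empty] at ht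
      subst ht
      rw [sum_empty]
      by_contra h
      obtain ⟨h1, -⟩ := hf ∅ fun h0 => h h0.symm
      exact absurd (M.ne _ (M.int_sub h1)) (by simp)

/-- **surjectivity** -/
theorem be_surj (ap : Finset V → V) (hap : ∀ t : Finset V, t.Nonempty → ap t ∈ t) (k : ℕ)
    {f : Finset V → ZMod 2} (hfin : (Function.support f).Finite) (hf : ∀ t, f t ≠ 0 → t ∈ M.int ∧ t.card + k = n + 1)
    (hc : ∀ t ∈ M.faces, ∑ w ∈ t, f (t.erase w) = 0) :
    ∃ z, M.IsTot k z ∧ M.D z = 0 ∧ ∀ t, ∑ v ∈ t, z ({v}, t) = f t := by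
  obtain ⟨z1, hz1, hz1'⟩ := exists_liftB M ap hap k hfin hf
  rcases k with _ | k
  · refine ⟨z1, hz1, ?_, hz1'⟩
    funext p
    obtain ⟨s, t⟩ := p
    show M.D z1 (s, t) = 0
    by_cases h : s.Nonempty ∧ s ⊆ t ∧ t ∈ M.faces
    swap
    · exact M.D_of_not h
    rw [M.D_of h.1 h.2.1 h.2.2]
    refine Finset.sum_eq_zero fun w hw => ?_
    rw [Finset.mem_sdiff] at hw
    have h1 : z1 (insert w s, t) = 0 := by
      by_contra hne
      have h2 := MX.Good.card_le M (hz1.2 _ hne)
      simp only at h2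
      rw [Finset.card_insert_of_notMem hw.2] at h2
      have h3 := Finset.card_pos.2 h.1
      omega
    have h2 : z1 (s, t.erase w) = 0 := by
      by_contra hne
      obtain ⟨-, -, -, h3⟩ := hz1.2 _ hne
      simp only at h3
      rw [Finset.card_erase_of_mem hw.1] at h3
      have h4 := M.card_le t h.2.2
      have h5 := Finset.card_pos.2 h.1
      have h6 := Finset.card_pos.2 ⟨w, hw.1⟩
      omega
    rw [h1, h2, add_zero]
  · obtain ⟨b, hb, hbD, hb'⟩ := be_inj M ap hap k (M.isTot_D hz1) (M.D_D z1) (fun t => by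
      by_cases ht : t ∈ M.faces
      · rw [be_D M z1 ht, ← hc t ht]
        exact sum_congr rfl fun w _ => hz1' _
      · exact sum_eq_zero fun v _ => M.D_of_not fun h => ht h.2.2)
    refine ⟨z1 + b, M.isTot_add hz1 hb, ?_, fun t => ?_⟩
    · rw [M.D_add, hbD]
      funext p
      exact zmod2_add_self _
    · simp only [Pi.add_apply, hb', add_zero]
      exact hz1' t

/-- the cochain of a chain of pairs -/
theorem be_fin {k : ℕ} {b : Finset V × Finset V → ZMod 2} (hb : M.IsTot k b) :
    ∃ g : Finset V →₀ ZMod 2, (∀ t, g t = ∑ v ∈ t, b ({v}, t)) ∧ ∀ t, g t ≠ 0 → t ∈ M.int ∧ t.card + k = n + 1 := by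
  have hg0 : ∀ t, ∑ v ∈ t, b ({v}, t) ≠ 0 → ∃ v ∈ t, b ({v}, t) ≠ 0 := fun t h =>
    exists_ne_zero_of_sum_ne_zero h
  have hfin : (Function.support fun t : Finset V => ∑ v ∈ t, b ({v}, t)).Finite := by
    refine (hb.1.image Prod.snd).subset fun t h => ?_
    obtain ⟨v, -, hv⟩ := hg0 t h
    exact ⟨({v}, t), hv, rfl⟩
  refine ⟨Finsupp.ofSupportFinite _ hfin, fun t => rfl, fun t h => ?_⟩
  obtain ⟨v, -, hv⟩ := hg0 t h
  obtain ⟨-, -, g3, g4⟩ := hb.2 _ hv
  simp only [card_singleton] at g4
  exact ⟨g3, by omega⟩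

end Pool.Agent.CF.LD
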