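import Pool.Agent.CF.MB
import Pool.Agent.CF.Defs
import Pool.Agent.S11.SqB
import Pool.Agent.H65.RM.Defs

/-!
# Project CF, Lefschetz duality (3): homology manifolds with a class with a finite orbit

`HomF L K k`: the homology of `K` over the field of two elements is zero in the degrees greater than `k`, and in the degree
`k` it has a nonzero class with a finite orbit under `L`.  `CohF.of_mfd_hom`: if `(K, B)` is a homology manifold of
dimension `n + k` with boundary, then `CohF L K B n`.
-/

set_option autoImplicit false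
set_option linter.unusedSectionVars false

open Finset Pointwise

namespace Pool.Agent.CF

open Pool.Agent.H37.TM Pool.Agent.H37.TM.TotX Pool.Agent.H65.RM Pool.Agent.S10 Pool.Agent.CD

section

variable {U : Type} [DecidableEq U]

/-- the finite chain `c` on the simplices of `K` with `j + 1` vertices is a cycle -/
def HCyc (K : Set (Finset U)) (j : ℕ) (c : Finset U →₀ ZMod 2) : Prop :=
  (∀ s, c s ≠ 0 → s ∈ K ∧ s.card = j + 1) ∧ ∀ s : Finset U, s.Nonempty → bdS c s = 0

/-- the finite chain `c` is the boundary of a finite chain on the simplices of `K` with `j + 2` vertices -/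
def HBdy (K : Set (Finset U)) (j : ℕ) (c : Finset U →₀ ZMod 2) : Prop :=
  ∃ b : Finset U →₀ ZMod 2, (∀ s, b s ≠ 0 → s ∈ K ∧ s.card = j + 2) ∧ ∀ s : Finset U, s.Nonempty → bdS b s = c s

/-- The homology of the simplicial complex `K` over the field of two elements is zero in the degrees greater than `k`, and
in the degree `k` the class of some cycle `c` is not zero and has a finite orbit under the group `L`: there is a finite set
`Z` of chains such that every translate of `c` is homologous to an element of `Z`. -/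
structure HomF (L : Type) [Group L] [MulAction L U] (K : Set (Finset U)) (k : ℕ) : Prop where
  high : ∀ j, k < j → ∀ c, HCyc K j c → HBdy K j c
  cls : ∃ c, HCyc K k c ∧ ¬ HBdy K k c ∧ ∃ Z : Finset (Finset U →₀ ZMod 2), ∀ g : L, ∃ w ∈ Z, HBdy K k (trn g c + w)

end

namespace LD

section

variable {U : Type} [DecidableEq U] {K B : Set (Finset U)} {N : ℕ}

/-- The homology manifold as an object of the auxiliary files. -/
def toM (hM : Mfd K B N) (hne : K.Nonempty) : MX U N where
  faces := K
  bd := B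
  ne := hM.ne
  down := hM.down
  bd_down := hM.bd_down
  card_le := hM.card_le
  fin := by
    intro v
    by_cases h : ({v} : Finset U) ∈ K
    · refine (hM.locfin _ h).subset fun t ht => ⟨ht.1, ?_⟩
      rw [Finset.singleton_subset_iff]; exact ht.2
    · refine Set.Finite.subset Set.finite_empty fun t ht => ?_
      exact absurd (hM.down t ht.1 {v} (Finset.singleton_subset_iff.2 ht.2)
        (Finset.singleton_nonempty v)) h
  loc := by
    intro s hs j hj x hx h0
    obtain ⟨g, hg, hg'⟩ := hM.low s hs j hj x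
      (fun t ht => ⟨(hx t ht).1.1, (hx t ht).1.2, (hx t ht).2⟩)
      (fun t ht _ hst => h0 t ht hst)
    refine ⟨g, fun t ht => ⟨⟨(hg t ht).1, (hg t ht).2.1⟩, (hg t ht).2.2⟩, fun t ht hst => ?_⟩
    by_cases hB : t ∈ B
    · have h1 : x t = 0 := by
        by_contra hne
        exact (hx t hne).1.2 hB
      rw [h1]
      symm
      refine Finset.sum_eq_zero fun w _ => ?_
      by_contra hne
      obtain ⟨g1, g2, _⟩ := hg _ hne
      exact g2 (hM.bd_down t hB _ (Finset.erase_subset _ _) (hM.ne _ g1))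
    · exact (hg' t ht hB hst).symm
  top := by
    intro s hs x hx
    rw [hM.top s hs x (fun t ht => ⟨(hx t ht).1.1, (hx t ht).1.2, (hx t ht).2⟩)]
    constructor
    · rintro ⟨g, hg, hg'⟩
      refine ⟨g, fun t ht => ⟨⟨(hg t ht).1, (hg t ht).2.1⟩, (hg t ht).2.2⟩, fun t ht hst => ?_⟩
      by_cases hB : t ∈ B
      · have h1 : x t = 0 := by
          by_contra hne
          exact (hx t hne).1.2 hB
        rw [h1]
        symm
        refine Finset.sum_eq_zero fun w _ => ?_
        by_contra hne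
        obtain ⟨g1, g2, _⟩ := hg _ hne
        exact g2 (hM.bd_down t hB _ (Finset.erase_subset _ _) (hM.ne _ g1))
      · exact (hg' t ht hB hst).symm
    · rintro ⟨g, hg, hg'⟩
      exact ⟨g, fun t ht => ⟨(hg t ht).1.1, (hg t ht).1.2, (hg t ht).2⟩,
        fun t ht _ hst => (hg' t ht hst).symm⟩
  ex_top := by
    intro s hs
    obtain ⟨t, h1, h2, h3⟩ := hM.top_ex s hs
    exact ⟨t, ⟨h1, h2⟩, h3⟩
  nonempty := hne
  dd := 0
  acyc := by
    intro c hc _
    have h0 : c = 0 := by
      ext s
      by_contra h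
      obtain ⟨h1, h2⟩ := hc s (Finsupp.mem_support_iff.2 h)
      have h3 := Finset.card_pos.2 (hM.ne s h1)
      omega
    exact ⟨0, fun s hs => absurd hs (by simp), by rw [h0, map_zero]⟩

end

section

variable {U : Type} [DecidableEq U] {N : ℕ} (M : MX U N)

/-- the chain of a chain of pairs -/
theorem ep_fin {k : ℕ} {z : Finset U × Finset U → ZMod 2} (hz : M.IsTot k z) :
    ∃ c : Finset U →₀ ZMod 2, (∀ s : Finset U, s.card = k + 1 → ∑ᶠ t, z (s, t) = c s) ∧
      ∀ s, c s ≠ 0 → s ∈ M.faces ∧ s.card = k + 1 := by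
  classical
  have hne : ∀ s, (if s.card = k + 1 then ∑ᶠ t, z (s, t) else 0) ≠ 0 → s.card = k + 1 ∧ ∃ t, z (s, t) ≠ 0 := by
    intro s hs
    split_ifs at hs with h
    · refine ⟨h, ?_⟩
      by_contra h1
      push Not at h1
      exact hs (by simp [h1])
    · exact absurd rfl hs
  have hfin : (Function.support fun s : Finset U => if s.card = k + 1 then ∑ᶠ t, z (s, t) else 0).Finite := by
    refine (hz.1.image Prod.fst).subset fun s hs => ?_
    obtain ⟨-, t, ht⟩ := hne s hs
    exact ⟨(s, t), ht, rfl⟩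
  refine ⟨Finsupp.ofSupportFinite _ hfin, fun s hs => ?_, fun s hs => ?_⟩
  · show _ = if s.card = k + 1 then ∑ᶠ t, z (s, t) else 0
    rw [if_pos hs]
  · obtain ⟨h1, t, ht⟩ := hne s hs
    obtain ⟨g1, g2, g3, -⟩ := hz.2 _ ht
    exact ⟨M.down t (M.int_sub g3) s g2 g1, h1⟩

/-- the boundary of a chain is zero on the sets of other sizes -/
theorem sbd_card {m : ℕ} {c : Finset U →₀ ZMod 2} (hc : ∀ s, c s ≠ 0 → s.card = m + 1) {s' : Finset U}
    (hs' : s'.card ≠ m) : sbd c s' = 0 := by
  classical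
  rw [sbd_apply c (c.support.biUnion id) (fun s hs => Finset.subset_biUnion_of_mem id hs)]
  refine sum_eq_zero fun w hw => ?_
  by_contra h
  have h1 := hc _ h
  rw [card_insert_of_notMem (mem_sdiff.1 hw).2] at h1
  omega

/-- the chain of a cycle of pairs is a cycle -/
theorem ep_cyc {k : ℕ} {z : Finset U × Finset U → ZMod 2} (hz : M.IsTot k z) (hD : M.D z = 0) {c : Finset U →₀ ZMod 2}
    (hc : ∀ s : Finset U, s.card = k + 1 → ∑ᶠ t, z (s, t) = c s) (hc' : ∀ s, c s ≠ 0 → s.card = k + 1) {s' : Finset U}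
    (hs' : s'.Nonempty) : sbd c s' = 0 := by
  classical
  by_cases hk : s'.card = k
  swap
  · exact sbd_card hc' hk
  obtain ⟨U0, hU0⟩ := M.exists_U hz
  set W := U0 ∪ c.support.biUnion id with hWdef
  have hU : ∀ p, z p ≠ 0 → ∀ t ∈ M.faces, p.2 ⊆ t → t ⊆ W := fun p hp t ht hpt =>
    (hU0 p hp t ht hpt).trans Finset.subset_union_left
  have hzU : ∀ s t, z (s, t) ≠ 0 → t ⊆ W := fun s t h =>
    hU _ h t (M.int_sub (hz.2 _ h).2.2.1) subset_rfl
  rw [sbd_apply c W (fun s hs => (Finset.subset_biUnion_of_mem id hs).trans Finset.subset_union_right)]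
  refine Eq.trans (sum_congr rfl fun w hw => ?_) ((eps_D M hz hs' hk hU).trans ?_)
  · rw [← hc (insert w s') (by rw [card_insert_of_notMem (mem_sdiff.1 hw).2, hk]),
      finsum_eq_powerset (U := W) (fun t h => hzU _ t h)]
  · rw [hD]
    exact sum_eq_zero fun t _ => rfl

end

section

variable {L U : Type} [Group L] [DecidableEq U] [MulAction L U] {K B : Set (Finset U)} {N : ℕ}

theorem rel_trn' (hA : PAct L K B) {j : ℕ} {z : Finset U →₀ ZMod 2} (hz : Rel K B ∅ j z) (g : L) : Rel K B ∅ j (trn g z) := by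
  intro t ht
  obtain ⟨h1, h2, -, h4⟩ := hz (g • t) ht
  refine ⟨?_, fun h5 => h2 (hA.B_mem g t h5), empty_subset _, ?_⟩
  · have h5 := hA.K_mem g⁻¹ _ h1
    rwa [inv_smul_smul] at h5
  · rwa [Finset.card_smul_finset] at h4

theorem cob_trn' (hA : PAct L K B) {y : Finset U →₀ ZMod 2} (h : IsCob K B ∅ y 0) (g : L) :
    IsCob K B ∅ (trn g y) 0 := by
  intro t ht ht' _
  have h1 := h (g • t) (hA.K_mem g t ht) (fun h5 => ht' (by
    have h6 := hA.B_mem g⁻¹ _ h5
    rwa [inv_smul_smul] at h6)) (empty_subset _)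
  rw [sdiff_empty] at h1 ⊢
  show ∑ v ∈ t, y (g • t.erase v) = 0
  rw [← show ∑ v ∈ g • t, y ((g • t).erase v) = 0 from h1, Pool.Agent.S11.sum_smul_set]
  refine sum_congr rfl fun v _ => ?_
  rw [Pool.Agent.S11.erase_smul]

/-- the translate of a chain of pairs -/
def zt (g : L) (z : Finset U × Finset U → ZMod 2) (p : Finset U × Finset U) : ZMod 2 := z (g • p.1, g • p.2)

theorem zt_tot (hM : Mfd K B N) (hne : K.Nonempty) (hA : PAct L K B) (g : L) {k : ℕ} {z : Finset U × Finset U → ZMod 2}
    (hz : (toM hM hne).IsTot k z) : (toM hM hne).IsTot k (zt g z) := by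
  constructor
  · refine Set.Finite.of_finite_image (f := fun p : Finset U × Finset U => (g • p.1, g • p.2)) (hz.1.subset ?_) ?_
    · rintro _ ⟨p, hp, rfl⟩
      exact hp
    · rintro ⟨a, b⟩ _ ⟨a', b'⟩ _ h
      have h1 : g • a = g • a' := (Prod.mk.inj h).1
      have h2 : g • b = g • b' := (Prod.mk.inj h).2
      rw [smul_left_cancel g h1, smul_left_cancel g h2]
  · rintro ⟨s, t⟩ h
    obtain ⟨h1, h2, ⟨h3, h3'⟩, h4⟩ := hz.2 (g • s, g • t) h
    simp only [Finset.card_smul_finset] at h4
    refine ⟨smul_finset_nonempty.1 h1, smul_finset_subset_smul_finset_iff.1 h2, ⟨?_, fun h5 => h3' (hA.B_mem g t h5)⟩, h4⟩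
    have h5 := hA.K_mem g⁻¹ _ h3
    rwa [inv_smul_smul] at h5

theorem zt_D (hM : Mfd K B N) (hne : K.Nonempty) (hA : PAct L K B) (g : L) (z : Finset U × Finset U → ZMod 2)
    (hD : (toM hM hne).D z = 0) : (toM hM hne).D (zt g z) = 0 := by
  funext p
  obtain ⟨s, t⟩ := p
  show (toM hM hne).D (zt g z) (s, t) = 0
  by_cases h : s.Nonempty ∧ s ⊆ t ∧ t ∈ (toM hM hne).faces
  swap
  · exact (toM hM hne).D_of_not h
  obtain ⟨h1, h2, h3⟩ := h
  have h4 : (toM hM hne).D z (g • s, g • t) = 0 := by rw [hD]; rfl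
  rw [(toM hM hne).D_of (smul_finset_nonempty.2 h1) (smul_finset_subset_smul_finset h2) (hA.K_mem g t h3)] at h4
  rw [(toM hM hne).D_of h1 h2 h3, ← h4, ← smul_finset_sdiff, Pool.Agent.S11.sum_smul_set]
  refine sum_congr rfl fun w _ => ?_
  show z (g • insert w s, g • t) + z (g • s, g • t.erase w) = _
  rw [Finset.smul_finset_insert, Pool.Agent.S11.erase_smul]

theorem zt_ep (g : L) (z : Finset U × Finset U → ZMod 2) (s : Finset U) : ∑ᶠ t, zt g z (s, t) = ∑ᶠ t, z (g • s, t) :=
  finsum_comp_equiv (MulAction.toPerm g) (f := fun t : Finset U => z (g • s, t))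

theorem zt_be (g : L) (z : Finset U × Finset U → ZMod 2) (t : Finset U) :
    ∑ v ∈ t, zt g z ({v}, t) = ∑ v ∈ g • t, z ({v}, g • t) := by
  rw [Pool.Agent.S11.sum_smul_set]
  refine sum_congr rfl fun v _ => ?_
  show z (g • {v}, g • t) = z ({g • v}, g • t)
  rw [Finset.smul_finset_singleton]

/-- a boundary of pairs gives a coboundary -/
theorem cobd_of (hM : Mfd K B N) (hne : K.Nonempty) {j k : ℕ} (hjk : j + k = N) {z b : Finset U × Finset U → ZMod 2}
    {w : Finset U →₀ ZMod 2} (hz : ∀ t, ∑ v ∈ t, z ({v}, t) = w t) (hb : (toM hM hne).IsTot (k + 1) b)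
    (hbD : (toM hM hne).D b = z) : Cobd K B j w := by
  obtain ⟨g, hg, hg'⟩ := be_fin (toM hM hne) hb
  refine ⟨g, fun t ht => ?_, fun t ht _ _ => ?_⟩
  · obtain ⟨⟨h1, h2⟩, h3⟩ := hg' t ht
    exact ⟨h1, h2, empty_subset _, by omega⟩
  · rw [sdiff_empty, ← hz t, ← hbD, be_D (toM hM hne) b ht]
    exact sum_congr rfl fun v _ => hg _

/-- the sums of a relative cochain over the faces of a simplex of the boundary -/
theorem sum_bd (hM : Mfd K B N) {j : ℕ} {y : Finset U → ZMod 2} (hy : Rel K B ∅ j y) {t : Finset U} (ht : t ∈ B) :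
    ∑ v ∈ t, y (t.erase v) = 0 := by
  refine sum_eq_zero fun v _ => ?_
  by_contra h
  obtain ⟨h1, h2, -⟩ := hy _ h
  exact h2 (hM.bd_down t ht _ (erase_subset _ _) (hM.ne _ h1))

theorem hbdy_add {k : ℕ} {a b : Finset U →₀ ZMod 2} (ha : HBdy K k a) (hb : HBdy K k b) : HBdy K k (a + b) := by
  obtain ⟨a', h1, h2⟩ := ha
  obtain ⟨b', h3, h4⟩ := hb
  refine ⟨a' + b', fun s hs => ?_, fun s hs => ?_⟩
  · by_cases h0 : a' s = 0
    · refine h3 s fun h5 => hs ?_
      rw [Finsupp.add_apply, h0, h5, add_zero]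
    · exact h1 s h0
  · rw [map_add, Finsupp.add_apply, Finsupp.add_apply, h2 s hs, h4 s hs]

end

end LD

open LD

section

variable {L U : Type} [Group L] [DecidableEq U] [MulAction L U] {K B : Set (Finset U)} {N : ℕ}

/-- **Lefschetz duality.** A homology manifold of dimension `n + k` with boundary whose homology is zero in the degrees
greater than `k` and has a nonzero class with a finite orbit in the degree `k`. -/
theorem CohF.of_mfd_hom {n k : ℕ} (hM : Mfd K B (n + k)) (hA : PAct L K B) (hH : HomF L K k) : CohF L K B n := by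
  classical
  obtain ⟨c, hc, hc', Z, hZ⟩ := hH.cls
  have hne : K.Nonempty := by
    by_contra h
    rw [Set.not_nonempty_iff_eq_empty] at h
    apply hc'
    refine ⟨0, fun s hs => absurd rfl hs, fun s _ => ?_⟩
    rw [map_zero, Finsupp.zero_apply]
    by_contra h1
    have h2 := (hc.1 s fun h3 => h1 h3.symm).1
    rw [h] at h2
    exact h2
  obtain ⟨s0, hs0⟩ := hne
  have hne : K.Nonempty := ⟨s0, hs0⟩
  obtain ⟨u0, -⟩ := hM.ne s0 hs0
  have hex : ∀ t : Finset U, ∃ u : U, t.Nonempty → u ∈ t := by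
    intro t
    by_cases h : t.Nonempty
    · exact ⟨h.choose, fun _ => h.choose_spec⟩
    · exact ⟨u0, fun h' => absurd h' h⟩
  choose ap hap using hex
  refine ⟨hM.ne, hM.down, hM.bd_sub, hM.bd_down, hM.locfin, ?_, ?_⟩
  · -- the low degrees
    rintro j hj w ⟨hw1, hw2⟩
    obtain ⟨kk, hkk⟩ : ∃ kk, j + kk = n + k := ⟨n + k - j, by omega⟩
    obtain ⟨z, hz, hzD, hzw⟩ := be_surj (toM hM hne) ap hap kk (f := w) w.hasFiniteSupport (fun t ht => by
      obtain ⟨h1, h2, -, h4⟩ := hw1 t ht
      exact ⟨⟨h1, h2⟩, by omega⟩) (fun t ht => by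
      by_cases htB : t ∈ B
      · exact sum_bd hM hw1 htB
      · have h1 := hw2 t ht htB (empty_subset _)
        rw [sdiff_empty] at h1
        exact h1)
    obtain ⟨e, he, he'⟩ := ep_fin (toM hM hne) hz
    obtain ⟨b₀, hb₀, hb₀'⟩ := hH.high kk (by omega) e ⟨he', fun s hs =>
      ep_cyc (toM hM hne) hz hzD he (fun s hs => (he' s hs).2) hs⟩
    obtain ⟨b, hb, hbD⟩ := eps_inj (toM hM hne) kk hz hzD hb₀ (fun s hs => by
      rw [he s hs]
      exact (hb₀' s (Finset.card_pos.1 (by omega))).symm)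
    exact cobd_of hM hne hkk hzw hb hbD
  · -- the class
    obtain ⟨z, hz, hzD, hzc⟩ := eps_surj (toM hM hne) k hc.1 hc.2
    obtain ⟨f, hf, hf'⟩ := be_fin (toM hM hne) hz
    have hfR : Rel K B ∅ (n + 1) f := fun t ht => by
      obtain ⟨⟨h1, h2⟩, h3⟩ := hf' t ht
      exact ⟨h1, h2, empty_subset _, by omega⟩
    have hfC : IsCob K B ∅ f 0 := by
      intro t ht _ _
      rw [sdiff_empty]
      have h1 := be_D (toM hM hne) z ht
      rw [hzD] at h1
      refine Eq.trans (sum_congr rfl fun v _ => hf _) (h1.symm.trans ?_)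
      exact sum_eq_zero fun _ _ => rfl
    refine ⟨f, ⟨hfR, hfC⟩, ?_, ?_⟩
    · rintro ⟨y, hy1, hy2⟩
      obtain ⟨Y, hY, hYy⟩ := exists_liftB (toM hM hne) ap hap (k + 1) (f := y) y.hasFiniteSupport (fun t ht => by
        obtain ⟨h1, h2, -, h4⟩ := hy1 t ht
        exact ⟨⟨h1, h2⟩, by omega⟩)
      have hzY := (toM hM hne).isTot_add hz ((toM hM hne).isTot_D hY)
      obtain ⟨b, hb, hbD, -⟩ := be_inj (toM hM hne) ap hap k hzY
        (by rw [(toM hM hne).D_add, hzD, (toM hM hne).D_D, add_zero]) (fun t => by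
          simp only [Pi.add_apply]
          rw [sum_add_distrib, ← hf t]
          by_cases ht : t ∈ K
          · rw [be_D (toM hM hne) Y ht, sum_congr rfl fun w _ => hYy (t.erase w)]
            by_cases htB : t ∈ B
            · rw [sum_bd hM hy1 htB, add_zero]
              by_contra h
              exact (hf' t h).1.2 htB
            · have h1 := hy2 t ht htB (empty_subset _)
              rw [sdiff_empty] at h1
              rw [h1]
              exact zmod2_add_self _
          · have h1 : f t = 0 := by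
              by_contra h
              exact ht (hf' t h).1.1
            rw [h1, zero_add]
            exact sum_eq_zero fun v _ => (toM hM hne).D_of_not fun h => ht h.2.2)
      have hbY := (toM hM hne).isTot_add hb hY
      have hDz : (toM hM hne).D (b + Y) = z := by
        rw [(toM hM hne).D_add, hbD]
        funext p
        simp only [Pi.add_apply]
        have h2 := zmod2_add_self ((toM hM hne).D Y p)
        linear_combination h2
      obtain ⟨e, he, he'⟩ := ep_fin (toM hM hne) hbY
      refine hc' ⟨e, he', fun s hs => ?_⟩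
      by_cases hk : s.card = k + 1
      · have h1 := eps_chain (toM hM hne) hbY he hk
        rw [hDz, hzc s hk] at h1
        exact h1.symm
      · have h1 : c s = 0 := by
          by_contra h
          exact hk (hc.1 s h).2
        rw [h1]
        exact sbd_card (fun s hs => (he' s hs).2) hk
    · -- the orbit
      have hch : ∀ w : Finset U →₀ ZMod 2, ∃ g' : L, (∃ g : L, HBdy K k (trn g c + w)) → HBdy K k (trn g' c + w) := by
        intro w
        by_cases h : ∃ g : L, HBdy K k (trn g c + w)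
        · obtain ⟨g, hg⟩ := h
          exact ⟨g, fun _ => hg⟩
        · exact ⟨1, fun h' => absurd h' h⟩
      choose gw hgw using hch
      refine ⟨Z.image fun w => trn (gw w) f, fun g => ?_⟩
      obtain ⟨w, hwZ, hw⟩ := hZ g
      refine ⟨trn (gw w) f, mem_image_of_mem _ hwZ, ⟨rel_trn' hA hfR _, cob_trn' hA hfC _⟩, ?_⟩
      obtain ⟨b₀, hb₀, hb₀'⟩ := hbdy_add hw (hgw w ⟨g, hw⟩)
      have hT := (toM hM hne).isTot_add (zt_tot hM hne hA g hz) (zt_tot hM hne hA (gw w) hz)
      obtain ⟨b, hb, hbD⟩ := eps_inj (toM hM hne) k hT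
        (by rw [(toM hM hne).D_add, zt_D hM hne hA g z hzD, zt_D hM hne hA (gw w) z hzD, add_zero]) hb₀ (fun s hs => by
          rw [sum_row_add (zt_tot hM hne hA g hz).1 (zt_tot hM hne hA (gw w) hz).1, zt_ep, zt_ep,
            hzc _ (by rw [Finset.card_smul_finset, hs]), hzc _ (by rw [Finset.card_smul_finset, hs])]
          refine Eq.trans ?_ (hb₀' s (Finset.card_pos.1 (by omega))).symm
          show c (g • s) + c (gw w • s) = (c (g • s) + w s) + (c (gw w • s) + w s)
          have h2 := zmod2_add_self (w s)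
          linear_combination -h2)
      refine cobd_of hM hne rfl (w := trn g f + trn (gw w) f) (fun t => ?_) hb hbD
      simp only [Pi.add_apply]
      rw [sum_add_distrib, zt_be, zt_be, ← hf, ← hf]
      rfl

end

end Pool.Agent.CF
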