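import Pool.Agent.CF.MC

/-!
# Project CF, Lefschetz duality (4): examples

`HomF.of_acycLt`: acyclic homology manifolds, `k = 0`.  `HomF.of_fin`: finite homology in the degree `k`.
-/

set_option autoImplicit false
set_option linter.unusedSectionVars false

open Finset Pointwise

namespace Pool.Agent.CF

open Pool.Agent.H37.TM Pool.Agent.H37.TM.TotX Pool.Agent.H65.RM Pool.Agent.S10 Pool.Agent.CD LD

section

variable {U : Type} [DecidableEq U] {K : Set (Finset U)}

/-- the double boundary is zero -/
private theorem bb (f : Finset U →₀ ZMod 2) : bdS (bdS f) = 0 := by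
  have h : bdS ∘ₗ bdS = (0 : (Finset U →₀ ZMod 2) →ₗ[ZMod 2] (Finset U →₀ ZMod 2)) := by
    refine Finsupp.lhom_ext' fun s => LinearMap.ext_ring ?_
    show bdS (bdS (Finsupp.single s 1)) = 0
    unfold bdS
    rw [Finsupp.linearCombination_single, one_smul, map_sum]
    have h1 : ∀ v ∈ s, Finsupp.linearCombination (ZMod 2) (fun s : Finset U => ∑ v ∈ s, Finsupp.single (s.erase v) (1 : ZMod 2))
        (Finsupp.single (s.erase v) 1) = ∑ w ∈ s.erase v, Finsupp.single ((s.erase v).erase w) 1 := fun v _ => by
      rw [Finsupp.linearCombination_single, one_smul]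
    rw [sum_congr rfl h1]
    ext t
    rw [Finsupp.finsetSum_apply]
    simp only [Finsupp.finsetSum_apply]
    exact sum_pairs_symm s (fun v w => (Finsupp.single ((s.erase v).erase w) (1 : ZMod 2)) t) (fun v w => by
      rw [erase_right_comm])
  exact LinearMap.congr_fun h f

/-- boundaries of chains of all degrees -/
theorem LD.hbdy_of {j : ℕ} {f g : Finset U →₀ ZMod 2} (hf : ∀ s, f s ≠ 0 → s.card = j + 1) (hg : ∀ s, g s ≠ 0 → s ∈ K)
    (h : bdS g = f) : HBdy K j f := by
  classical
  have hval : ∀ s, (g.filter fun s => s.card = j + 2) s ≠ 0 → s.card = j + 2 ∧ g s ≠ 0 := by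
    intro s hs
    rw [Finsupp.filter_apply] at hs
    split_ifs at hs with h1
    · exact ⟨h1, hs⟩
    · exact absurd rfl hs
  refine ⟨g.filter fun s => s.card = j + 2, fun s hs => ⟨hg s (hval s hs).2, (hval s hs).1⟩, fun s _ => ?_⟩
  by_cases hs : s.card = j + 1
  · set W := g.support.biUnion id with hW
    have hgW : ∀ s ∈ g.support, s ⊆ W := fun s hs => Finset.subset_biUnion_of_mem id hs
    have h1 : sbd g s = f s := by
      rw [← h]
      rfl
    rw [← h1]
    show sbd (g.filter fun s => s.card = j + 2) s = sbd g s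
    rw [sbd_apply g W hgW, sbd_apply _ W (fun s hs =>
      hgW s (Finsupp.mem_support_iff.2 (hval s (Finsupp.mem_support_iff.1 hs)).2))]
    refine sum_congr rfl fun w hw => ?_
    rw [Finsupp.filter_apply, if_pos (by rw [card_insert_of_notMem (mem_sdiff.1 hw).2, hs])]
  · have h1 : f s = 0 := by
      by_contra h0
      exact hs (hf s h0)
    rw [h1]
    exact sbd_card (fun s hs => (hval s hs).1) hs

end

section

variable {L U : Type} [Group L] [DecidableEq U] [MulAction L U] {K B : Set (Finset U)} {N : ℕ}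

theorem LD.hcyc_trn {k : ℕ} (hK : ∀ (g : L) (s : Finset U), s ∈ K → g • s ∈ K) {c : Finset U →₀ ZMod 2} (hc : HCyc K k c)
    (g : L) : HCyc K k (trn g c) := by
  classical
  refine ⟨fun s hs => ?_, fun s hs => ?_⟩
  · obtain ⟨h1, h2⟩ := hc.1 (g • s) hs
    rw [Finset.card_smul_finset] at h2
    have h3 := hK g⁻¹ _ h1
    rw [inv_smul_smul] at h3
    exact ⟨h3, h2⟩
  · set W := (trn g c).support.biUnion id ∪ g⁻¹ • (c.support.biUnion id) with hW
    have h1 : ∀ t ∈ (trn g c).support, t ⊆ W := fun t ht =>
      (Finset.subset_biUnion_of_mem id ht).trans subset_union_left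
    have h2 : ∀ t ∈ c.support, t ⊆ g • W := fun t ht => by
      have h3 : t ⊆ c.support.biUnion id := Finset.subset_biUnion_of_mem id ht
      have h4 : g⁻¹ • t ⊆ W := (smul_finset_subset_smul_finset h3).trans subset_union_right
      have h5 : g • g⁻¹ • t ⊆ g • W := smul_finset_subset_smul_finset h4
      rwa [smul_inv_smul] at h5
    show sbd (trn g c) s = 0
    have h6 : sbd c (g • s) = 0 := hc.2 (g • s) (smul_finset_nonempty.2 hs)
    rw [sbd_apply c (g • W) h2, ← smul_finset_sdiff, Pool.Agent.S11.sum_smul_set] at h6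
    rw [sbd_apply _ W h1, ← h6]
    refine sum_congr rfl fun w _ => ?_
    show c (g • insert w s) = c (insert (g • w) (g • s))
    rw [Finset.smul_finset_insert]

/-- finite homology in the degree `k` -/
theorem HomF.of_fin (hK : ∀ (g : L) (s : Finset U), s ∈ K → g • s ∈ K) {k : ℕ}
    (h1 : ∀ j, k < j → ∀ c, HCyc K j c → HBdy K j c) (h2 : ∃ c, HCyc K k c ∧ ¬ HBdy K k c)
    (Z : Finset (Finset U →₀ ZMod 2)) (hZ : ∀ c, HCyc K k c → ∃ w ∈ Z, HBdy K k (c + w)) : HomF L K k where
  high := h1
  cls := by
    obtain ⟨c, hc, hc'⟩ := h2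
    exact ⟨c, hc, hc', Z, fun g => hZ _ (hcyc_trn hK hc g)⟩

/-- acyclic homology manifolds -/
theorem HomF.of_acycLt (hM : Mfd K B N) (hK : AcycLt K (N + 1)) (hA : PAct L K B) : HomF L K 0 := by
  classical
  have hbd0 : ∀ {j : ℕ} {c : Finset U →₀ ZMod 2}, HCyc K (j + 1) c → bdS c = 0 := by
    intro j c hc
    ext s
    rw [Finsupp.zero_apply]
    by_cases hs : s.Nonempty
    · exact hc.2 s hs
    · refine sbd_card (m := j + 1) (fun s hs => (hc.1 s hs).2) ?_
      rw [not_nonempty_iff_eq_empty.1 hs, card_empty]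
      omega
  refine ⟨fun j hj c hc => ?_, ?_⟩
  · obtain ⟨i, rfl⟩ : ∃ i, j = i + 1 := ⟨j - 1, by omega⟩
    obtain ⟨g, hg, hg'⟩ := hK c (fun s hs => ⟨Or.inl (hc.1 s hs).1, hM.card_le s (hc.1 s hs).1⟩) (hbd0 hc)
    exact hbdy_of (fun s hs => (hc.1 s hs).2) hg hg'
  · obtain ⟨s0, hs0⟩ := (toMX hM hK).nonempty
    obtain ⟨u, hu⟩ := hM.ne s0 hs0
    have huK : ({u} : Finset U) ∈ K := hM.down s0 hs0 {u} (singleton_subset_iff.2 hu) (singleton_nonempty u)
    have hsing : ∀ s, (Finsupp.single ({u} : Finset U) (1 : ZMod 2)) s ≠ 0 → s = {u} := by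
      intro s hs
      by_contra h
      rw [Finsupp.single_apply, if_neg (fun h' => h h'.symm)] at hs
      exact hs rfl
    have hc : HCyc K 0 (Finsupp.single {u} 1) := by
      refine ⟨fun s hs => ?_, fun s hs => ?_⟩
      · rw [hsing s hs]
        exact ⟨huK, card_singleton u⟩
      · refine sbd_card (m := 0) (fun s hs => by rw [hsing s hs, card_singleton]) ?_
        exact (card_pos.2 hs).ne'
    refine ⟨Finsupp.single {u} 1, hc, ?_, {Finsupp.single {u} 1}, fun g => ⟨_, mem_singleton_self _, ?_⟩⟩
    · rintro ⟨b, hb, hb'⟩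
      have h1 : sbd (bdS b) ∅ = 0 := by
        have h2 := bb b
        have h3 := DFunLike.congr_fun h2 (∅ : Finset U)
        exact h3
      rw [sbd_apply (bdS b) ((bdS b).support.biUnion id ∪ {u}) (fun s hs =>
        (Finset.subset_biUnion_of_mem id hs).trans subset_union_left), sdiff_empty] at h1
      rw [sum_congr rfl fun w _ => hb' (insert w ∅) (insert_nonempty _ _), sum_eq_single u] at h1
      · simp at h1
      · intro w _ hw
        rw [insert_empty_eq, Finsupp.single_apply, if_neg]
        intro h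
        exact hw (singleton_injective h).symm
      · intro h
        exact absurd (mem_union_right _ (mem_singleton_self u)) h
    · have h1 : ∀ s, (trn g (Finsupp.single {u} 1) + Finsupp.single {u} 1 : Finset U →₀ ZMod 2) s ≠ 0 →
          s ∈ K ∧ s.card = 0 + 1 := by
        intro s hs
        by_cases h : (Finsupp.single ({u} : Finset U) (1 : ZMod 2)) s = 0
        · refine (hcyc_trn hA.K_mem hc g).1 s fun h2 => hs ?_
          rw [Finsupp.add_apply, h2, h, add_zero]
        · exact hc.1 s h
      have h2 : bdS (trn g (Finsupp.single {u} 1) + Finsupp.single {u} 1 : Finset U →₀ ZMod 2) = 0 := by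
        ext s
        rw [map_add, Finsupp.add_apply, Finsupp.zero_apply]
        by_cases hs : s.Nonempty
        · rw [(hcyc_trn hA.K_mem hc g).2 s hs, hc.2 s hs, add_zero]
        · rw [not_nonempty_iff_eq_empty.1 hs]
          have h3 : trn g (Finsupp.single ({u} : Finset U) (1 : ZMod 2)) = Finsupp.single {g⁻¹ • u} 1 := by
            ext t
            rw [trn_apply, Finsupp.single_apply, Finsupp.single_apply]
            refine if_congr ?_ rfl rfl
            constructor
            · intro h
              rw [← inv_smul_smul g t, ← h, Finset.smul_finset_singleton]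
            · intro h
              rw [← h, Finset.smul_finset_singleton, smul_inv_smul]
          have h4 : ∀ v : U, bdS (Finsupp.single ({v} : Finset U) (1 : ZMod 2)) ∅ = 1 := by
            intro v
            unfold bdS
            rw [Finsupp.linearCombination_single, one_smul]
            simp
          rw [h3, h4, h4]
          decide
      obtain ⟨g', hg, hg'⟩ := hK _ (fun s hs => ⟨Or.inl (h1 s hs).1, hM.card_le s (h1 s hs).1⟩) h2
      exact hbdy_of (fun s hs => (h1 s hs).2) hg hg'

end

end Pool.Agent.CF
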