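import Pool.Agent.CD.Mu
import Pool.Agent.CE.Bd
import Pool.Agent.CF.Defs

/-!
# Project CF: manifolds and pairs with one-dimensional cohomology are examples
-/

set_option autoImplicit false
set_option linter.unusedSectionVars false

open Finset Pointwise

namespace Pool.Agent.CF

open Pool.Agent.H37.TM Pool.Agent.H65.RM Pool.Agent.S10 Pool.Agent.S11 Pool.Agent.S14 Pool.Agent.CD
open Pool.Agent.CE hiding exists_maps exR_all exactBd_of_coarse
open Pool.Agent.H10.CI (CoarseEmb)

variable {L U : Type} [Group L] [DecidableEq U] [MulAction L U] {K B mu : Set (Finset U)} {n : ℕ}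

theorem coarse_id (L : Type) [Group L] : CoarseEmb (fun g : L => g) where
  lip := fun a => (Set.finite_singleton a).subset (by
    rintro x ⟨g, hg⟩
    rw [← hg, inv_mul_cancel_left]
    exact Set.mem_singleton a)
  prop := fun x => (Set.finite_singleton x).subset (by
    rintro a ⟨g, hg⟩
    rw [← hg, inv_mul_cancel_left]
    exact Set.mem_singleton a)

/-- a fundamental cycle (no invariance is needed) -/
theorem CohF.of_dual (hD : Dual K B mu n (n + 1)) (hA : PAct L K B) : CohF L K B n where
  ne := hD.ne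
  down := hD.down
  bd_sub := hD.bd_sub
  bd_down := hD.bd_down
  locfin := hD.locfin
  low := fun j hj w hw => hD.low j hj (by omega) w hw.1 hw.2
  cls := by
    have h := Pool.Agent.CE.crs_of (coarse_id L) hD hA
    obtain ⟨w, hw1, hw2, hw3⟩ := hD.ex
    refine ⟨w, ⟨hw1, hw2⟩, ?_, {w}, fun g => ⟨w, mem_singleton_self w, ⟨hw1, hw2⟩, ?_⟩⟩
    · rintro ⟨b, hb1, hb2⟩
      have h1 := ev_cob h hD hb1 hb2
      rw [hw3] at h1
      exact one_ne_zero h1
    · have h1 : Rel K B ∅ (n + 1) (trn g w) := rel_trn h g hw1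
      have h2 : IsCob K B ∅ (trn g w) 0 := cob_trn h g hw2
      refine hD.top (trn g w + w) (fun t ht => ?_) (fun t ht ht' h0 => ?_) ?_
      · by_cases h3 : trn g w t = 0
        · refine hw1 t fun h4 => ht ?_
          rw [Finsupp.add_apply, h3, h4, add_zero]
        · exact h1 t h3
      · have h3 := h2 t ht ht' h0
        have h4 := hw2 t ht ht' h0
        show ∑ v ∈ t \ ∅, (trn g w (t.erase v) + w (t.erase v)) = 0
        rw [sum_add_distrib]
        exact (congrArg₂ (· + ·) h3 h4).trans (add_zero 0)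
      · have h3 : ∑ᶠ t ∈ mu, (trn g w t + w t) = ∑ᶠ t ∈ mu, trn g w t + ∑ᶠ t ∈ mu, w t :=
          finsum_mem_add_distrib' ((trn g w).hasFiniteSupport.subset Set.inter_subset_right)
            (w.hasFiniteSupport.subset Set.inter_subset_right)
        refine Eq.trans h3 ?_
        have h4 : ∑ᶠ t ∈ mu, trn g w t = ∑ᶠ t ∈ mu, w t := ev_tr h hD g hw1 hw2
        rw [h4]
        exact CharTwo.add_self_eq_zero _

/-- one-dimensional cohomology in the degree `n` -/
theorem CohF.of_cdual (hD : CDual K B n) (hA : PAct L K B) : CohF L K B n := by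
  obtain ⟨mu, h⟩ := exists_mu hD
  exact CohF.of_dual h hA

/-- manifolds -/
theorem CohF.of_manOrDual (hM : ManOrDual L K B n (n + 1)) (hA : PAct L K B) : CohF L K B n := by
  obtain ⟨mu, h, -⟩ := dual_of hM hA
  exact CohF.of_dual h hA

end Pool.Agent.CF
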