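import Pool.Agent.PQ.Final
import Pool.Agent.CF.Final
import Pool.Agent.CF.Of

/-!
# Project CF: the theorem for all groups which are coarsely equivalent to a group of the class
-/

set_option autoImplicit false
set_option linter.unusedSectionVars false

open Finset Pointwise

namespace Pool.Agent.CF

open Pool.Agent.H37.TM Pool.Agent.H65.RM Pool.Agent.S10 Pool.Agent.S11 Pool.Agent.S14 Pool.Agent.TW Pool.Agent.PQ
open Pool.Agent.H10.CI (CoarseEmb)

/-- **The theorem.** -/
theorem pq_main {V W U G Q L : Type} [DecidableEq V] [DecidableEq W] [DecidableEq U] [Group G] [MulAction G V] [Group Q]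
    [MulAction Q W] [Group L] [MulAction L U] {X : Set (Finset V)} (hX : Acyc X) (hXR : AcR X) (hG : IsGeomS G X)
    (H : Subgroup G) (hH : H.FiniteIndex) (hU : RAL H ∨ Tower (⊤ : Subgroup H)) {Y : Set (Finset W)} (hY : AcR Y)
    (hQ : IsGeomS Q Y) {f : G → Q} (hf : CoarseEq f) {e : Q → L} (he : CoarseEmb e) {M B : Set (Finset U)} {n : ℕ}
    (hM : CohF L M B n) (hA : PAct L M B) (i : ℕ) (hn : n < 2 * i) : L2ZeroS Y i :=
  l2zero_of_coarse hG hQ hXR hY hf.toCoarseEmb hf.onto (main_cf hG hX H hU (coarse_comp he hf.toCoarseEmb) hM hA i hn)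

end Pool.Agent.CF
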